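import Pool.Agent.H14.HallThm

set_option autoImplicit false

namespace Pool.Agent.H14

open Subgroup MulOpposite
open scoped Pointwise

/-- restriction of a group of automorphisms to an invariant subgroup -/
noncomputable def resHom {S G : Type*} [Group S] [Group G] (φ : S →* MulAut G) (K : Subgroup G)
    (h : ∀ s, ∀ x ∈ K, φ s x ∈ K) : S →* MulAut K where
  toFun s :=
    { toFun := fun x => ⟨φ s x, h s x x.2⟩
      invFun := fun x => ⟨φ s⁻¹ x, h s⁻¹ x x.2⟩
      left_inv := fun x => by
        apply Subtype.ext
        change φ s⁻¹ (φ s x) = x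
        rw [← MulAut.mul_apply, ← map_mul, inv_mul_cancel, map_one, MulAut.one_apply]
      right_inv := fun x => by
        apply Subtype.ext
        change φ s (φ s⁻¹ x) = x
        rw [← MulAut.mul_apply, ← map_mul, mul_inv_cancel, map_one, MulAut.one_apply]
      map_mul' := fun x y => by
        apply Subtype.ext
        change φ s (x * y : G) = _
        rw [map_mul]; rfl }
  map_one' := by
    ext x
    change φ 1 (x : G) = x
    rw [map_one, MulAut.one_apply]
  map_mul' s t := by
    ext x
    change φ (s * t) (x : G) = φ s (φ t x)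
    rw [map_mul, MulAut.mul_apply]

lemma resHom_apply {S G : Type*} [Group S] [Group G] (φ : S →* MulAut G) (K : Subgroup G)
    (h : ∀ s, ∀ x ∈ K, φ s x ∈ K) (s : S) (x : K) : (resHom φ K h s x : G) = φ s x := rfl

lemma exists_invariant_sylow {S : Type*} [Group S] {r : ℕ} [Fact r.Prime] (hS : IsPGroup r S)
    {K : Type*} [Group K] [Finite K] (ψ : S →* MulAut K) (p : ℕ)
    (hdvd : ¬ r ∣ Nat.card (Sylow p K)) :
    ∃ T : Sylow p K, ∀ s, ∀ x ∈ (T : Subgroup K), ψ s x ∈ (T : Subgroup K) := by
  letI : MulAction S (Sylow p K) := MulAction.compHom _ ψ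
  obtain ⟨T, hT⟩ := hS.nonempty_fixed_point_of_prime_not_dvd_card (Sylow p K) hdvd
  refine ⟨T, fun s x hx => ?_⟩
  have h1 : s • T = T := hT s
  have h2 : ψ s • (T : Subgroup K) = T := congrArg (fun Q : Sylow p K => (Q : Subgroup K)) h1
  rw [← h2]
  exact Subgroup.smul_mem_pointwise_smul x (ψ s) _ hx

/-- A family of invariant Sylow subgroups gives a bound. -/
lemma card_dvd_of_invariant {S G : Type*} [Group S] [Group G] [Finite G]
    (φ : S →* MulAut G) (hφ : Function.Injective φ)
    (P : ∀ p ∈ (Nat.card G).primeFactors, Sylow p G)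
    (hinv : ∀ p ∈ (Nat.card G).primeFactors, ∃ Q : Subgroup G,
      Nat.card Q = p ^ (Nat.card G).factorization p ∧ ∀ s, ∀ x ∈ Q, φ s x ∈ Q) :
    Nat.card S ∣ ∏ p : (Nat.card G).primeFactors, Nat.card (MulAut (↥(P p.1 p.2 : Subgroup G))) := by
  classical
  choose Q hQ hQinv using hinv
  let Φ : S →* (∀ p : (Nat.card G).primeFactors, MulAut (Q p.1 p.2)) :=
    MonoidHom.pi fun p => resHom φ (Q p.1 p.2) (hQinv p.1 p.2)
  have hinj : Function.Injective Φ := by
    rw [injective_iff_map_eq_one]
    intro s hs
    apply hφ
    rw [map_one]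
    -- the fixed subgroup of `s`
    let Fx : Subgroup G :=
      { carrier := {x | φ s x = x}
        mul_mem' := fun {a b} ha hb => by
          change φ s (a * b) = a * b
          rw [map_mul]
          exact congrArg₂ _ ha hb
        one_mem' := map_one _
        inv_mem' := fun {a} ha => by
          change φ s a⁻¹ = a⁻¹
          rw [map_inv]
          exact congrArg _ ha }
    have hle : ∀ p (hp : p ∈ (Nat.card G).primeFactors), Q p hp ≤ Fx := by
      intro p hp x hx
      have h1 : Φ s ⟨p, hp⟩ = 1 := by rw [hs]; rfl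
      have h2 := congrArg (fun f : MulAut (Q p hp) => ((f ⟨x, hx⟩ : Q p hp) : G)) h1
      exact h2
    have htop : Fx = ⊤ := by
      apply Subgroup.eq_top_of_le_card
      apply Nat.le_of_dvd Nat.card_pos
      rw [← Nat.factorization_le_iff_dvd Nat.card_pos.ne' Nat.card_pos.ne']
      intro p
      by_cases hp : p ∈ (Nat.card G).primeFactors
      · have hpp : p.Prime := Nat.prime_of_mem_primeFactors hp
        have h1 : p ^ (Nat.card G).factorization p ∣ Nat.card Fx := by
          rw [← hQ p hp]
          exact Subgroup.card_dvd_of_le (hle p hp)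
        exact (hpp.pow_dvd_iff_le_factorization Nat.card_pos.ne').1 h1
      · have : (Nat.card G).factorization p = 0 := by
          rw [← Finsupp.notMem_support_iff]
          exact hp
        rw [this]; exact Nat.zero_le _
    ext x
    have : x ∈ Fx := by rw [htop]; exact mem_top x
    exact this
  have h1 := Subgroup.card_dvd_of_injective Φ hinj
  rw [Nat.card_pi] at h1
  convert h1 using 1
  refine Finset.prod_congr rfl fun p _ => ?_
  haveI : Fact (p.1.Prime) := ⟨Nat.prime_of_mem_primeFactors p.2⟩
  let e : (Sylow.ofCard (Q p.1 p.2) (hQ p.1 p.2) : Subgroup G) ≃* (P p.1 p.2 : Subgroup G) :=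
    Sylow.equiv _ _
  exact Nat.card_congr (MulAut.congr e).toEquiv.symm

/-- The `r`-part of the divisibility, for groups with exactly one class of `r`-complements. -/
theorem rpart {G : Type*} [Group G] [Finite G] (r : ℕ) [hr : Fact r.Prime]
    (P : ∀ p ∈ (Nat.card G).primeFactors, Sylow p G)
    (H : Subgroup G) (hH : IsRC r H)
    (hconj : ∀ B : Subgroup G, IsRC r B → ∃ g : G, B = H.map (MulAut.conj g).toMonoidHom)
    (R : Subgroup (MulAut G)) (hR : IsPGroup r R) :
    Nat.card R ∣ Nat.card (G ⧸ Subgroup.center G) *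
      ∏ p : (Nat.card G).primeFactors, Nat.card (MulAut (↥(P p.1 p.2 : Subgroup G))) := by
  classical
  -- the stabilizer of `H` in `R`
  let S : Subgroup R := MulAction.stabilizer R H
  have hmul : (MulAction.orbit R H).ncard * Nat.card S = Nat.card R := by
    rw [← MulAction.index_stabilizer, mul_comm]
    exact S.card_mul_index
  rw [← hmul]
  apply mul_dvd_mul
  · -- the orbit
    obtain ⟨i, hi⟩ := (IsPGroup.iff_card).1 hR
    have h1 : (MulAction.orbit R H).ncard ∣ r ^ i := by
      rw [← hi, ← hmul]; exact dvd_mul_right _ _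
    obtain ⟨a, -, ha⟩ := (Nat.dvd_prime_pow hr.out).1 h1
    have h2 : (Subgroup.normalizer (H : Set G)).index ∣ H.index :=
      index_dvd_of_le H.le_normalizer
    obtain ⟨k, hk⟩ := hH.2
    rw [hk] at h2
    obtain ⟨b, -, hb⟩ := (Nat.dvd_prime_pow hr.out).1 h2
    -- orbit is contained in the set of conjugates
    have h3 : (MulAction.orbit R H).ncard ≤ (Subgroup.normalizer (H : Set G)).index := by
      let f : G ⧸ (Subgroup.normalizer (H : Set G)) → Subgroup G :=
        Quotient.lift (fun g : G => H.map (MulAut.conj g).toMonoidHom) (by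
          intro a b hab
          have hab' : a⁻¹ * b ∈ Subgroup.normalizer (H : Set G) := by
            rwa [← QuotientGroup.leftRel_apply]
          have h4 : H.map (MulAut.conj (a⁻¹ * b)).toMonoidHom = H := by
            ext x
            rw [Subgroup.mem_map]
            constructor
            · rintro ⟨y, hy, rfl⟩
              exact (Subgroup.mem_normalizer_iff.1 hab' y).1 hy
            · intro hx
              refine ⟨(a⁻¹ * b)⁻¹ * x * (a⁻¹ * b), ?_, ?_⟩
              · have := (Subgroup.mem_normalizer_iff.1 hab' ((a⁻¹ * b)⁻¹ * x * (a⁻¹ * b)))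
                rw [this]
                have e : a⁻¹ * b * ((a⁻¹ * b)⁻¹ * x * (a⁻¹ * b)) * (a⁻¹ * b)⁻¹ = x := by group
                rw [e]; exact hx
              · change a⁻¹ * b * ((a⁻¹ * b)⁻¹ * x * (a⁻¹ * b)) * (a⁻¹ * b)⁻¹ = x
                group
          change H.map (MulAut.conj a).toMonoidHom = H.map (MulAut.conj b).toMonoidHom
          conv_lhs => rw [← h4]
          rw [map_map]
          congr 1
          ext x
          change a * (a⁻¹ * b * x * (a⁻¹ * b)⁻¹) * a⁻¹ = b * x * b⁻¹
          group)
      have hsub : MulAction.orbit R H ⊆ Set.range f := by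
        rintro _ ⟨s, rfl⟩
        have hB : IsRC r (s • H) := by
          obtain ⟨h1, k, h2⟩ := hH
          refine ⟨?_, k, ?_⟩
          · have : Nat.card (s • H : Subgroup G) = Nat.card H :=
              Nat.card_congr (Subgroup.equivSMul (s : MulAut G) H).toEquiv.symm
            rwa [this]
          · rw [← h2]
            exact Subgroup.index_map_of_bijective (MulEquiv.bijective (s : MulAut G)) H
        obtain ⟨g, hg⟩ := hconj _ hB
        exact ⟨(QuotientGroup.mk g), hg.symm⟩
      calc (MulAction.orbit R H).ncard ≤ (Set.range f).ncard :=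
            Set.ncard_le_ncard hsub (Set.toFinite _)
        _ = Nat.card (Set.range f) := rfl
        _ ≤ Nat.card (G ⧸ (Subgroup.normalizer (H : Set G))) := Finite.card_range_le f
        _ = _ := rfl
    have h4 : a ≤ b := by
      rw [ha, hb] at h3
      exact (Nat.pow_le_pow_iff_right hr.out.one_lt).1 h3
    have h5 : (Subgroup.normalizer (H : Set G)).index ∣ (Subgroup.center G).index :=
      index_dvd_of_le (Subgroup.center_le_normalizer _)
    rw [ha]
    exact ((pow_dvd_pow r h4).trans (hb ▸ dvd_rfl)).trans h5
  · -- the stabilizer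
    let φ : S →* MulAut G := R.subtype.comp S.subtype
    have hφ : Function.Injective φ := R.subtype_injective.comp S.subtype_injective
    have hSp : IsPGroup r S := hR.to_subgroup S
    have hHinv : ∀ s, ∀ x ∈ H, φ s x ∈ H := by
      intro s x hx
      have h1 : (s : R) • H = H := s.2
      rw [← h1]
      exact Subgroup.smul_mem_pointwise_smul x ((s : R) : MulAut G) _ hx
    apply card_dvd_of_invariant φ hφ P
    intro p hp
    haveI : Fact p.Prime := ⟨Nat.prime_of_mem_primeFactors hp⟩
    by_cases hpr : p = r
    · subst hpr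
      obtain ⟨T, hT⟩ := exists_invariant_sylow hSp φ p (not_dvd_card_sylow p G)
      exact ⟨T, T.card_eq_multiplicity, hT⟩
    · let ψ : S →* MulAut H := resHom φ H hHinv
      have hnd : ¬ r ∣ Nat.card (Sylow p H) := by
        intro hd
        have h1 : Nat.card (Sylow p H) ∣ Nat.card H := by
          have T : Sylow p H := default
          exact (T.card_dvd_index).trans (T : Subgroup H).index_dvd_card
        have h2 := hd.trans h1
        have h3 := hH.1
        rw [Nat.coprime_comm, hr.out.coprime_iff_not_dvd] at h3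
        exact h3 h2
      obtain ⟨T, hT⟩ := exists_invariant_sylow hSp ψ p hnd
      refine ⟨(T : Subgroup H).map H.subtype, ?_, ?_⟩
      · rw [Nat.card_congr ((T : Subgroup H).equivMapOfInjective _ H.subtype_injective).toEquiv.symm,
          T.card_eq_multiplicity]
        congr 1
        have h1 := H.card_mul_index
        obtain ⟨k, hk⟩ := hH.2
        rw [← h1, hk, Nat.factorization_mul Nat.card_pos.ne' (pow_pos hr.out.pos k).ne',
          Finsupp.add_apply, Nat.factorization_pow, Finsupp.smul_apply,
          Nat.factorization_eq_zero_of_not_dvd (n := r)]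
        · simp
        · intro hd
          exact hpr ((Nat.prime_dvd_prime_iff_eq Fact.out hr.out).1 hd)
      · rintro s x ⟨y, hy, rfl⟩
        exact ⟨ψ s y, hT s y hy, rfl⟩

/-- The divisibility for finite solvable groups. -/
theorem aut_dvd_of_solvable (G : Type*) [Group G] [Finite G] [Group.IsSolvable G]
    (P : ∀ p ∈ (Nat.card G).primeFactors, Sylow p G) :
    Nat.card (MulAut G) ∣ Nat.card (G ⧸ Subgroup.center G) *
      ∏ p : (Nat.card G).primeFactors, Nat.card (MulAut (↥(P p.1 p.2 : Subgroup G))) := by
  rw [Nat.dvd_iff_prime_pow_dvd_dvd]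
  intro r k hr hk
  haveI : Fact r.Prime := ⟨hr⟩
  obtain ⟨⟨H, hH⟩, hconj⟩ := hall_RC r (Nat.card G) G rfl
  let R : Sylow r (MulAut G) := default
  have h1 : r ^ k ∣ Nat.card R := by
    rw [R.card_eq_multiplicity]
    exact pow_dvd_pow r ((hr.pow_dvd_iff_le_factorization Nat.card_pos.ne').1 hk)
  exact h1.trans (rpart r P H hH (fun B hB => hconj H B hH hB) R R.isPGroup')

end Pool.Agent.H14
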