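import Pool.Agent.H14.AutDiv

set_option autoImplicit false

namespace Pool.Agent.H14

open Subgroup
open scoped Pointwise

/-- the action of `Aut G` on the quotient by a characteristic subgroup -/
noncomputable def quotHom {G : Type*} [Group G] (N : Subgroup G) [hN : N.Characteristic] :
    MulAut G →* MulAut (G ⧸ N) where
  toFun α := QuotientGroup.congr N N α (Subgroup.characteristic_iff_map_eq.1 hN α)
  map_one' := by
    ext x
    induction x using QuotientGroup.induction_on with
    | H x => rfl
  map_mul' α β := by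
    ext x
    induction x using QuotientGroup.induction_on with
    | H x => rfl

lemma quotHom_mk {G : Type*} [Group G] (N : Subgroup G) [N.Characteristic] (α : MulAut G) (x : G) :
    quotHom N α (QuotientGroup.mk x) = QuotientGroup.mk (α x) := rfl

/-- A family of invariant Sylow subgroups, one of which is centralised, gives a bound. -/
lemma card_dvd_of_invariant_erase {S G : Type*} [Group S] [Group G] [Finite G]
    (φ : S →* MulAut G) (hφ : Function.Injective φ)
    (P : ∀ p ∈ (Nat.card G).primeFactors, Sylow p G)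
    (r : (Nat.card G).primeFactors)
    (hr : ∃ Q : Subgroup G, Nat.card Q = (r : ℕ) ^ (Nat.card G).factorization r ∧
      ∀ s, ∀ x ∈ Q, φ s x = x)
    (hinv : ∀ p ∈ (Nat.card G).primeFactors, p ≠ r → ∃ Q : Subgroup G,
      Nat.card Q = p ^ (Nat.card G).factorization p ∧ ∀ s, ∀ x ∈ Q, φ s x ∈ Q) :
    Nat.card S ∣ ∏ p ∈ Finset.univ.erase r, Nat.card (MulAut (↥(P p.1 p.2 : Subgroup G))) := by
  classical
  obtain ⟨Qr, hQr, hQrfix⟩ := hr
  choose Q hQ hQinv using hinv
  let s0 : Finset (Nat.card G).primeFactors := Finset.univ.erase r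
  have hne : ∀ p : s0, (p.1 : ℕ) ≠ r := by
    rintro ⟨p, hp⟩ h
    have h1 : p ≠ r := (Finset.mem_erase.1 hp).1
    exact h1 (Subtype.ext h)
  let Φ : S →* (∀ p : s0, MulAut (Q p.1.1 p.1.2 (hne p))) :=
    MonoidHom.pi fun p => resHom φ (Q p.1.1 p.1.2 (hne p)) (hQinv p.1.1 p.1.2 (hne p))
  have hinj : Function.Injective Φ := by
    rw [injective_iff_map_eq_one]
    intro s hs
    apply hφ
    rw [map_one]
    let Fx : Subgroup G :=
      { carrier := {x | φ s x = x}
        mul_mem' := fun {a b} ha hb => by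
          change φ s (a * b) = a * b
          rw [map_mul]
          exact congrArg₂ _ ha hb
        one_mem' := map_one _
        inv_mem' := fun {a} ha => by
          change φ s a⁻¹ = a⁻¹
          rw [map_inv]
          exact congrArg _ ha }
    have hle : ∀ p (hp : p ∈ (Nat.card G).primeFactors) (hpr : p ≠ r), Q p hp hpr ≤ Fx := by
      intro p hp hpr x hx
      have hmem : (⟨p, hp⟩ : (Nat.card G).primeFactors) ∈ s0 :=
        Finset.mem_erase.2 ⟨fun h => hpr (congrArg Subtype.val h), Finset.mem_univ _⟩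
      have h1 : Φ s ⟨⟨p, hp⟩, hmem⟩ = 1 := by rw [hs]; rfl
      have h2 := congrArg (fun f : MulAut (Q p hp hpr) => ((f ⟨x, hx⟩ : Q p hp hpr) : G)) h1
      exact h2
    have hler : Qr ≤ Fx := fun x hx => hQrfix s x hx
    have htop : Fx = ⊤ := by
      apply Subgroup.eq_top_of_le_card
      apply Nat.le_of_dvd Nat.card_pos
      rw [← Nat.factorization_le_iff_dvd Nat.card_pos.ne' Nat.card_pos.ne']
      intro p
      by_cases hp : p ∈ (Nat.card G).primeFactors
      · have hpp : p.Prime := Nat.prime_of_mem_primeFactors hp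
        have h1 : p ^ (Nat.card G).factorization p ∣ Nat.card Fx := by
          by_cases hpr : p = r
          · subst hpr
            rw [← hQr]
            exact Subgroup.card_dvd_of_le hler
          · rw [← hQ p hp hpr]
            exact Subgroup.card_dvd_of_le (hle p hp hpr)
        exact (hpp.pow_dvd_iff_le_factorization Nat.card_pos.ne').1 h1
      · have : (Nat.card G).factorization p = 0 := by
          rw [← Finsupp.notMem_support_iff]
          exact hp
        rw [this]; exact Nat.zero_le _
    ext x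
    have : x ∈ Fx := by rw [htop]; exact mem_top x
    exact this
  have h1 := Subgroup.card_dvd_of_injective Φ hinj
  rw [Nat.card_pi] at h1
  rw [← Finset.prod_coe_sort]
  convert h1 using 1
  refine Finset.prod_congr rfl fun p _ => ?_
  have : Fact (p.1.1.Prime) := ⟨Nat.prime_of_mem_primeFactors p.1.2⟩
  let e : (Sylow.ofCard (Q p.1.1 p.1.2 (hne p)) (hQ p.1.1 p.1.2 (hne p)) : Subgroup G) ≃*
      (P p.1.1 p.1.2 : Subgroup G) := Sylow.equiv _ _
  exact Nat.card_congr (MulAut.congr e).toEquiv.symm

/-- inner automorphisms of a quotient -/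
lemma card_conj_range_dvd {G : Type*} [Group G] [Finite G] (N : Subgroup G) [N.Normal] :
    Nat.card (MulAut.conj : (G ⧸ N) →* MulAut (G ⧸ N)).range ∣ Nat.card (G ⧸ Subgroup.center G) := by
  have h1 : Nat.card (MulAut.conj : (G ⧸ N) →* MulAut (G ⧸ N)).range =
      (((MulAut.conj : (G ⧸ N) →* MulAut (G ⧸ N)).comp (QuotientGroup.mk' N)).ker).index := by
    rw [index_ker]
    congr 1
    rw [MonoidHom.range_comp, MonoidHom.range_eq_top.2 (QuotientGroup.mk'_surjective N)]
    rw [MonoidHom.range_eq_map]
  rw [h1]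
  apply index_dvd_of_le
  intro z hz
  rw [MonoidHom.mem_ker]
  ext x
  induction x using QuotientGroup.induction_on with
  | H x =>
    change (QuotientGroup.mk z * QuotientGroup.mk x * (QuotientGroup.mk z)⁻¹ : G ⧸ N) =
      QuotientGroup.mk x
    rw [← QuotientGroup.mk_mul, ← (Subgroup.mem_center_iff.1 hz x), QuotientGroup.mk_mul,
      mul_inv_cancel_right]

/-- The `r`-part of the divisibility under a condition on `G / N`, where `N` is a characteristic
`r'`-subgroup. -/
theorem rpart_red {G : Type*} [Group G] [Finite G] (r : ℕ) [hr : Fact r.Prime]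
    (hrG : r ∈ (Nat.card G).primeFactors)
    (P : ∀ p ∈ (Nat.card G).primeFactors, Sylow p G)
    (N : Subgroup G) [hN : N.Characteristic] (hNr : (Nat.card N).Coprime r)
    (hyp : ∀ (α : MulAut (G ⧸ N)) (Q : Sylow r (G ⧸ N)), (∃ k : ℕ, α ^ r ^ k = 1) →
      (∀ x ∈ Q, α x = x) → ∃ g : G ⧸ N, α = MulAut.conj g)
    (R : Subgroup (MulAut G)) (hR : IsPGroup r R) :
    Nat.card R ∣ Nat.card (G ⧸ Subgroup.center G) *
      ∏ p : (Nat.card G).primeFactors, Nat.card (MulAut (↥(P p.1 p.2 : Subgroup G))) := by
  classical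
  let φ : R →* MulAut G := R.subtype
  have hφ : Function.Injective φ := R.subtype_injective
  obtain ⟨T, hT⟩ := exists_invariant_sylow hR φ r (not_dvd_card_sylow r G)
  -- restriction to `T`
  let ρ : R →* MulAut (T : Subgroup G) := resHom φ T hT
  have hRC : Nat.card R = Nat.card ρ.range * Nat.card ρ.ker := by
    rw [← index_ker, mul_comm]
    exact (ρ.ker.card_mul_index).symm
  -- the action of the kernel on the quotient
  let θ : ρ.ker →* MulAut (G ⧸ N) := ((quotHom N).comp φ).comp ρ.ker.subtype
  have hC : Nat.card ρ.ker = Nat.card θ.range * Nat.card θ.ker := by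
    rw [← index_ker, mul_comm]
    exact (θ.ker.card_mul_index).symm
  have d1 : Nat.card ρ.range ∣ Nat.card (MulAut (↥(P r hrG : Subgroup G))) := by
    have h1 : Nat.card ρ.range ∣ Nat.card (MulAut (T : Subgroup G)) :=
      Subgroup.card_subgroup_dvd_card _
    let e : (T : Subgroup G) ≃* (P r hrG : Subgroup G) := Sylow.equiv _ _
    rwa [Nat.card_congr (MulAut.congr e).toEquiv] at h1
  have hfix : ∀ c : ρ.ker, ∀ x ∈ (T : Subgroup G), φ c x = x := by
    intro c x hx
    have h1 : ρ c = 1 := c.2
    have h2 := congrArg (fun f : MulAut (T : Subgroup G) => ((f ⟨x, hx⟩ : (T : Subgroup G)) : G)) h1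
    exact h2
  have d2 : Nat.card θ.range ∣ Nat.card (G ⧸ Subgroup.center G) := by
    refine dvd_trans (Subgroup.card_dvd_of_le ?_) (card_conj_range_dvd N)
    rintro _ ⟨c, rfl⟩
    obtain ⟨g, hg⟩ := hyp (θ c) (T.mapSurjective (QuotientGroup.mk'_surjective N)) (by
      obtain ⟨k, hk⟩ := hR (c : R)
      refine ⟨k, ?_⟩
      change ((quotHom N).comp φ) (c : R) ^ r ^ k = 1
      rw [← map_pow, hk, map_one]) (by
      intro x hx
      obtain ⟨y, hy, rfl⟩ := hx
      change (QuotientGroup.mk (φ c y) : G ⧸ N) = QuotientGroup.mk y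
      rw [hfix c y hy])
    exact ⟨g, hg.symm⟩
  -- the kernel of the action on the quotient
  have d3 : Nat.card θ.ker ∣ ∏ p ∈ Finset.univ.erase (⟨r, hrG⟩ : (Nat.card G).primeFactors),
      Nat.card (MulAut (↥(P p.1 p.2 : Subgroup G))) := by
    let φ' : θ.ker →* MulAut G := (φ.comp ρ.ker.subtype).comp θ.ker.subtype
    have hφ' : Function.Injective φ' :=
      (hφ.comp ρ.ker.subtype_injective).comp θ.ker.subtype_injective
    have hp' : IsPGroup r θ.ker := (hR.to_subgroup ρ.ker).to_subgroup θ.ker
    have htriv : ∀ s : θ.ker, ∀ x : G, x⁻¹ * φ' s x ∈ N := by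
      intro s x
      have h1 : θ s = 1 := s.2
      have h2 := congrArg (fun f : MulAut (G ⧸ N) => f (QuotientGroup.mk x)) h1
      have h3 : (QuotientGroup.mk (φ' s x) : G ⧸ N) = QuotientGroup.mk x := h2
      exact QuotientGroup.eq.1 h3.symm
    apply card_dvd_of_invariant_erase φ' hφ' P
    · exact ⟨T, T.card_eq_multiplicity, fun s x hx => hfix _ x hx⟩
    · intro p hp hpr
      have hpp : Fact p.Prime := ⟨Nat.prime_of_mem_primeFactors hp⟩
      have U : Sylow p G := default
      let L : Subgroup G := (U : Subgroup G) ⊔ N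
      have hLinv : ∀ s, ∀ x ∈ L, φ' s x ∈ L := by
        intro s x hx
        have h1 : φ' s x = x * (x⁻¹ * φ' s x) := by group
        rw [h1]
        exact L.mul_mem hx ((le_sup_right : N ≤ L) (htriv s x))
      have hLcop : Nat.Coprime (Nat.card L) r := by
        have h3 : Nat.card N * N.relIndex L = Nat.card L := by
          rw [← relIndex_bot_left, ← relIndex_bot_left]
          exact relIndex_mul_relIndex _ _ _ bot_le le_sup_right
        rw [← h3, relIndex_sup_right]
        apply Nat.Coprime.mul_left hNr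
        have h4 : N.relIndex (U : Subgroup G) ∣ Nat.card U := relIndex_dvd_card _ _
        refine Nat.Coprime.coprime_dvd_left h4 ?_
        rw [U.card_eq_multiplicity]
        apply Nat.Coprime.pow_left
        rw [Nat.coprime_primes hpp.out hr.out]
        exact hpr
      let ψ : θ.ker →* MulAut L := resHom φ' L hLinv
      have hnd : ¬ r ∣ Nat.card (Sylow p L) := by
        intro hd
        have h1 : Nat.card (Sylow p L) ∣ Nat.card L := by
          have T : Sylow p L := default
          exact (T.card_dvd_index).trans (T : Subgroup L).index_dvd_card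
        have h2 := hd.trans h1
        rw [Nat.coprime_comm, hr.out.coprime_iff_not_dvd] at hLcop
        exact hLcop h2
      obtain ⟨V, hV⟩ := exists_invariant_sylow hp' ψ p hnd
      refine ⟨(V : Subgroup L).map L.subtype, ?_, ?_⟩
      · rw [Nat.card_congr ((V : Subgroup L).equivMapOfInjective _ L.subtype_injective).toEquiv.symm,
          V.card_eq_multiplicity]
        congr 1
        apply le_antisymm
        · have h1 : Nat.card L ∣ Nat.card G := Subgroup.card_subgroup_dvd_card L
          exact (Nat.factorization_le_iff_dvd Nat.card_pos.ne' Nat.card_pos.ne').2 h1 p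
        · have h1 : p ^ (Nat.card G).factorization p ∣ Nat.card L := by
            rw [← U.card_eq_multiplicity]
            exact Subgroup.card_dvd_of_le le_sup_left
          exact (hpp.out.pow_dvd_iff_le_factorization Nat.card_pos.ne').1 h1
      · rintro s x ⟨y, hy, rfl⟩
        exact ⟨ψ s y, hV s y hy, rfl⟩
  rw [hRC, hC, ← Finset.mul_prod_erase Finset.univ _ (Finset.mem_univ (⟨r, hrG⟩ : (Nat.card G).primeFactors))]
  have := mul_dvd_mul d1 (mul_dvd_mul d2 d3)
  refine this.trans (dvd_of_eq ?_)
  ring

/-- For primes not dividing `|G|` the `r`-part of the divisibility always holds. -/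
theorem rpart_coprime {G : Type*} [Group G] [Finite G] (r : ℕ) [hr : Fact r.Prime]
    (hrG : ¬ r ∣ Nat.card G)
    (P : ∀ p ∈ (Nat.card G).primeFactors, Sylow p G)
    (R : Subgroup (MulAut G)) (hR : IsPGroup r R) :
    Nat.card R ∣ ∏ p : (Nat.card G).primeFactors, Nat.card (MulAut (↥(P p.1 p.2 : Subgroup G))) := by
  let φ : R →* MulAut G := R.subtype
  have hφ : Function.Injective φ := R.subtype_injective
  apply card_dvd_of_invariant φ hφ P
  intro p hp
  have hpp : Fact p.Prime := ⟨Nat.prime_of_mem_primeFactors hp⟩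
  have hnd : ¬ r ∣ Nat.card (Sylow p G) := by
    intro hd
    have h1 : Nat.card (Sylow p G) ∣ Nat.card G := by
      have T : Sylow p G := default
      exact (T.card_dvd_index).trans (T : Subgroup G).index_dvd_card
    exact hrG (hd.trans h1)
  obtain ⟨T, hT⟩ := exists_invariant_sylow hR φ p hnd
  exact ⟨T, T.card_eq_multiplicity, hT⟩

/-- The reduction theorem. -/
theorem aut_dvd_red (G : Type*) [Group G] [Finite G]
    (hyp : ∀ r : ℕ, r.Prime → r ∣ Nat.card G → ∃ N : Subgroup G, N.Characteristic ∧
      ∃ _ : N.Normal, (Nat.card N).Coprime r ∧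
      ∀ (α : MulAut (G ⧸ N)) (Q : Sylow r (G ⧸ N)), (∃ k : ℕ, α ^ r ^ k = 1) →
        (∀ x ∈ Q, α x = x) → ∃ g : G ⧸ N, α = MulAut.conj g)
    (P : ∀ p ∈ (Nat.card G).primeFactors, Sylow p G) :
    Nat.card (MulAut G) ∣ Nat.card (G ⧸ Subgroup.center G) *
      ∏ p : (Nat.card G).primeFactors, Nat.card (MulAut (↥(P p.1 p.2 : Subgroup G))) := by
  rw [Nat.dvd_iff_prime_pow_dvd_dvd]
  intro r k hr hk
  have hrf : Fact r.Prime := ⟨hr⟩
  let R : Sylow r (MulAut G) := default
  have h1 : r ^ k ∣ Nat.card R := by
    rw [R.card_eq_multiplicity]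
    exact pow_dvd_pow r ((hr.pow_dvd_iff_le_factorization Nat.card_pos.ne').1 hk)
  refine h1.trans ?_
  by_cases hrG : r ∣ Nat.card G
  · obtain ⟨N, hNc, hNn, hNr, hyp'⟩ := hyp r hr hrG
    exact rpart_red r (Nat.mem_primeFactors.2 ⟨hr, hrG, Nat.card_pos.ne'⟩) P N hNr hyp' R R.isPGroup'
  · exact (rpart_coprime r hrG P R R.isPGroup').trans (dvd_mul_left _ _)

end Pool.Agent.H14
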