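import Mathlib

set_option autoImplicit false

namespace Pool.Agent.H14

open Subgroup MulOpposite
open scoped Pointwise IsMulCommutative

/-- Complements of an abelian normal Hall subgroup are conjugate. -/
theorem conj_of_isComplement' {K : Type*} [Group K] [Finite K] (M : Subgroup K) [M.Normal]
    [IsMulCommutative M] (hco : Nat.Coprime (Nat.card M) M.index) {A B : Subgroup K}
    (hA : IsComplement' M A) (hB : IsComplement' M B) :
    ∃ g : K, B = A.map (MulAut.conj g).toMonoidHom := by
  -- the point of `QuotientDiff` attached to a complement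
  have key : ∀ {C : Subgroup K}, IsComplement' M C → ∃ α : M.QuotientDiff,
      C = MulAction.stabilizer K α := by
    intro C hC
    let T : M.LeftTransversal := ⟨(C : Set K), (isComplement'_def.1 hC.symm)⟩
    let α : M.QuotientDiff := Quotient.mk'' T
    refine ⟨α, ?_⟩
    have hle : C ≤ MulAction.stabilizer K α := by
      intro c hc
      rw [MulAction.mem_stabilizer_iff]
      have hT : (op c⁻¹ : Kᵐᵒᵖ) • T = T := by
        apply Subtype.ext
        change (op c⁻¹ : Kᵐᵒᵖ) • (C : Set K) = (C : Set K)
        ext x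
        rw [Set.mem_smul_set_iff_inv_smul_mem]
        simp only [← op_inv, inv_inv, op_smul_eq_mul, SetLike.mem_coe]
        exact Subgroup.mul_mem_cancel_right C hc
      change Quotient.mk'' ((op c⁻¹ : Kᵐᵒᵖ) • T) = Quotient.mk'' T
      rw [hT]
    have hst := isComplement'_stabilizer_of_coprime (H := M) (α := α) hco
    refine eq_of_le_of_card_ge hle ?_
    have h1 := hC.card_mul_card
    have h2 := hst.card_mul_card
    have h3 : 0 < Nat.card M := Nat.card_pos
    exact (Nat.eq_of_mul_eq_mul_left h3 (h2.trans h1.symm)).le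
  obtain ⟨α, rfl⟩ := key hA
  obtain ⟨β, rfl⟩ := key hB
  obtain ⟨h, hh⟩ := exists_smul_eq hco α β
  refine ⟨(h : K), ?_⟩
  have : (h : K) • α = β := hh
  rw [← this, MulAction.stabilizer_smul_eq_stabilizer_map_conj]

/-- `H` is an `r`-complement (a Hall `r'`-subgroup). -/
def IsRC (r : ℕ) {G : Type*} [Group G] (H : Subgroup G) : Prop :=
  Nat.Coprime (Nat.card H) r ∧ ∃ k : ℕ, H.index = r ^ k


/-- A nontrivial finite solvable group has a nontrivial normal subgroup which is either an
`r'`-group or an abelian `r`-group. -/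
lemma exists_minimal_like (r : ℕ) [Fact r.Prime] (G : Type*) [Group G] [Finite G] [Group.IsSolvable G]
    [Nontrivial G] : ∃ M : Subgroup G, M.Normal ∧ M ≠ ⊥ ∧
      (Nat.Coprime (Nat.card M) r ∨ (IsMulCommutative M ∧ ∃ k, Nat.card M = r ^ k)) := by
  classical
  obtain ⟨A, hAn, hA, hAc⟩ : ∃ A : Subgroup G, A.Normal ∧ A ≠ ⊥ ∧ IsMulCommutative A := by
    have hs : ∃ n, derivedSeries G n = ⊥ := Group.IsSolvable.solvable
    have hn := Nat.find_spec hs
    have hn0 : Nat.find hs ≠ 0 := by
      intro h0
      rw [h0, derivedSeries_zero] at hn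
      exact top_ne_bot hn
    obtain ⟨m, hm⟩ := Nat.exists_eq_succ_of_ne_zero hn0
    have hne : derivedSeries G m ≠ ⊥ := Nat.find_min hs (by omega)
    refine ⟨derivedSeries G m, derivedSeries_normal G m, hne, ?_⟩
    rw [hm, Nat.succ_eq_add_one, derivedSeries_succ, Subgroup.commutator_eq_bot_iff_le_centralizer] at hn
    refine ⟨⟨fun a b => ?_⟩⟩
    apply Subtype.ext
    exact ((Subgroup.mem_centralizer_iff.1 (hn a.2)) b b.2).symm
  by_cases hr : Nat.Coprime (Nat.card A) r
  · exact ⟨A, hAn, hA, Or.inl hr⟩
  · have hrdvd : r ∣ Nat.card A := by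
      rw [Nat.coprime_comm, (Fact.out : r.Prime).coprime_iff_not_dvd, not_not] at hr
      exact hr
    let S : Sylow r A := default
    have hSn : (S : Subgroup A).Normal := inferInstance
    have hSc : (S : Subgroup A).Characteristic := Sylow.characteristic_of_normal S hSn
    refine ⟨(S : Subgroup A).map A.subtype, inferInstance, ?_, Or.inr ⟨?_, ?_⟩⟩
    · rw [Ne, Subgroup.map_eq_bot_iff_of_injective _ A.subtype_injective]
      exact S.ne_bot_of_dvd_card hrdvd
    · exact inferInstance
    · obtain ⟨k, hk⟩ := (IsPGroup.iff_card).1 S.isPGroup'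
      refine ⟨k, ?_⟩
      rw [← hk]
      exact Nat.card_congr ((S : Subgroup A).equivMapOfInjective _ A.subtype_injective).toEquiv.symm

lemma isRC_map_conj {r : ℕ} {G : Type*} [Group G] {H : Subgroup G} (h : IsRC r H) (g : G) :
    IsRC r (H.map (MulAut.conj g).toMonoidHom) := by
  obtain ⟨h1, k, h2⟩ := h
  refine ⟨?_, k, ?_⟩
  · rwa [Nat.card_congr (H.equivMapOfInjective _ (MulAut.conj g).injective).toEquiv.symm]
  · rw [← h2]
    exact Subgroup.index_map_of_bijective (MulAut.conj g).bijective H

end Pool.Agent.H14
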