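import Pool.Agent.H14.HallComp

set_option autoImplicit false

namespace Pool.Agent.H14

open Subgroup MulOpposite
open scoped Pointwise IsMulCommutative

variable {G : Type*} [Group G] [Finite G]

/-- An `r`-complement contains every normal `r'`-subgroup. -/
lemma le_of_isRC_of_coprime {r : ℕ} {M A : Subgroup G} [M.Normal]
    (hM : Nat.Coprime (Nat.card M) r) (hA : IsRC r A) : M ≤ A := by
  obtain ⟨h1, k, h2⟩ := hA
  have hle : A ≤ A ⊔ M := le_sup_left
  have e1 : A.relIndex (A ⊔ M) ∣ r ^ k := by
    rw [← h2, ← relIndex_mul_index hle]
    exact dvd_mul_right _ _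
  have e2 : Nat.card (A ⊔ M : Subgroup G) ∣ Nat.card M * Nat.card A := by
    have h3 : Nat.card M * M.relIndex (A ⊔ M) = Nat.card (A ⊔ M : Subgroup G) := by
      rw [← relIndex_bot_left, ← relIndex_bot_left]
      exact relIndex_mul_relIndex _ _ _ bot_le le_sup_right
    rw [← h3, relIndex_sup_right]
    exact mul_dvd_mul_left _ (relIndex_dvd_card _ _)
  have e3 : A.relIndex (A ⊔ M) ∣ Nat.card (A ⊔ M : Subgroup G) := relIndex_dvd_card _ _
  have e4 : Nat.Coprime (A.relIndex (A ⊔ M)) (r ^ k) :=
    (Nat.Coprime.coprime_dvd_left (e3.trans e2) (Nat.Coprime.mul_left hM h1)).pow_right k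
  have e5 : A.relIndex (A ⊔ M) = 1 := Nat.eq_one_of_dvd_coprimes e4 dvd_rfl e1
  rw [relIndex_eq_one] at e5
  exact le_sup_right.trans e5

lemma isRC_map_mk {r : ℕ} (hr : r.Prime) {M A : Subgroup G} [M.Normal] (hA : IsRC r A) :
    IsRC r (A.map (QuotientGroup.mk' M)) := by
  obtain ⟨h1, k, h2⟩ := hA
  refine ⟨?_, ?_⟩
  · exact Nat.Coprime.coprime_dvd_left (Subgroup.card_map_dvd _ _) h1
  · have h3 : (A.map (QuotientGroup.mk' M)).index ∣ r ^ k := by
      rw [← h2]
      exact index_map_dvd _ (QuotientGroup.mk'_surjective M)
    obtain ⟨j, _, hj⟩ := (Nat.dvd_prime_pow hr).1 h3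
    exact ⟨j, hj⟩

lemma card_comap_mk {M : Subgroup G} [M.Normal] (K : Subgroup (G ⧸ M)) :
    Nat.card (K.comap (QuotientGroup.mk' M)) = Nat.card K * Nat.card M := by
  have h1 := card_mul_index (K.comap (QuotientGroup.mk' M))
  rw [index_comap_of_surjective _ (QuotientGroup.mk'_surjective M)] at h1
  have h2 := card_mul_index K
  have h3 := card_mul_index M
  rw [index_eq_card M] at h3
  have hpos : 0 < K.index := Nat.pos_of_ne_zero K.index_ne_zero_of_finite
  apply Nat.eq_of_mul_eq_mul_right hpos
  rw [h1, ← h3, ← h2]
  ring

universe u

/-- **Hall's theorem** for `r`-complements in finite solvable groups. -/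
theorem hall_RC (r : ℕ) [hr : Fact r.Prime] : ∀ (n : ℕ) (G : Type u) [Group G] [Finite G]
    [Group.IsSolvable G], Nat.card G = n →
    (∃ H : Subgroup G, IsRC r H) ∧ ∀ A B : Subgroup G, IsRC r A → IsRC r B →
      ∃ g : G, B = A.map (MulAut.conj g).toMonoidHom := by
  intro n
  induction n using Nat.strong_induction_on with
  | _ n ih =>
    intro G _ _ _ hn
    rcases subsingleton_or_nontrivial G with hG | hG
    · refine ⟨⟨⊥, ?_, 0, ?_⟩, fun A B _ _ => ⟨1, ?_⟩⟩
      · rw [card_bot]; exact Nat.coprime_one_left r
      · rw [pow_zero, index_eq_one]
        exact Subsingleton.elim _ _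
      · exact Subsingleton.elim _ _
    · obtain ⟨M, hMn, hM, hM'⟩ := exists_minimal_like r G
      have hcard : Nat.card (G ⧸ M) < n := by
        have h1 := card_mul_index M
        rw [index_eq_card M] at h1
        have h2 : 1 < Nat.card M := by
          have := Subgroup.one_lt_card_iff_ne_bot M
          exact this.2 hM
        have h3 : 0 < Nat.card (G ⧸ M) := Nat.card_pos
        rw [← hn, ← h1]
        nlinarith
      obtain ⟨⟨K, hK⟩, hconj⟩ := ih _ hcard (G ⧸ M) rfl
      -- conjugating in the quotient
      have lift : ∀ A B : Subgroup G, IsRC r A → IsRC r B → ∃ g : G,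
          (A.map (MulAut.conj g).toMonoidHom) ⊔ M = B ⊔ M := by
        intro A B hA hB
        obtain ⟨g', hg'⟩ := hconj _ _ (isRC_map_mk hr.out (M := M) hA)
          (isRC_map_mk hr.out (M := M) hB)
        obtain ⟨g, rfl⟩ := QuotientGroup.mk'_surjective M g'
        refine ⟨g, ?_⟩
        have h1 : ∀ C : Subgroup G, C ⊔ M = (C.map (QuotientGroup.mk' M)).comap
            (QuotientGroup.mk' M) := by
          intro C
          rw [comap_map_eq, QuotientGroup.ker_mk']
        rw [h1, h1, hg']
        congr 1
        rw [map_map, map_map]
        congr 1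
      rcases hM' with hco | ⟨hcomm, l, hl⟩
      · -- `M` is an `r'`-group
        constructor
        · refine ⟨K.comap (QuotientGroup.mk' M), ?_, ?_⟩
          · rw [card_comap_mk]
            exact Nat.Coprime.mul_left hK.1 hco
          · rw [index_comap_of_surjective _ (QuotientGroup.mk'_surjective M)]
            exact hK.2
        · intro A B hA hB
          obtain ⟨g, hg⟩ := lift A B hA hB
          refine ⟨g, ?_⟩
          have h1 : M ≤ B := le_of_isRC_of_coprime hco hB
          have h2 : M ≤ A.map (MulAut.conj g).toMonoidHom :=
            le_of_isRC_of_coprime hco (isRC_map_conj hA g)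
          rw [sup_eq_left.2 h1, sup_eq_left.2 h2] at hg
          exact hg.symm
      · -- `M` is an abelian `r`-group
        constructor
        · set K' := K.comap (QuotientGroup.mk' M) with hK'
          have hMK : M ≤ K' := by
            intro x hx
            rw [hK', mem_comap]
            have : QuotientGroup.mk' M x = 1 := by
              rw [← MonoidHom.mem_ker, QuotientGroup.ker_mk']; exact hx
            rw [this]; exact K.one_mem
          have c1 : Nat.card (M.subgroupOf K') = r ^ l := by
            rw [← hl]
            exact Nat.card_congr (subgroupOfEquivOfLe hMK).toEquiv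
          have c2 : (M.subgroupOf K').index = Nat.card K := by
            have h1 := card_mul_index (M.subgroupOf K')
            rw [c1, hK', card_comap_mk, hl, mul_comm] at h1
            exact Nat.eq_of_mul_eq_mul_right (pow_pos hr.out.pos l) h1
          obtain ⟨H', hH'⟩ := exists_right_complement'_of_coprime (N := M.subgroupOf K') (by
            rw [c1, c2]; exact (hK.1.pow_right l).symm)
          refine ⟨H'.map K'.subtype, ?_, ?_⟩
          · rw [Nat.card_congr (H'.equivMapOfInjective _ K'.subtype_injective).toEquiv.symm]
            rw [← hH'.symm.index_eq_card, c2]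
            exact hK.1
          · obtain ⟨k, hk⟩ := hK.2
            refine ⟨l + k, ?_⟩
            rw [index_map_subtype, hH'.index_eq_card, c1, hK',
              index_comap_of_surjective _ (QuotientGroup.mk'_surjective M), hk, pow_add]
        · intro A B hA hB
          obtain ⟨g, hg⟩ := lift A B hA hB
          set A' := A.map (MulAut.conj g).toMonoidHom with hA'
          have hA'RC : IsRC r A' := isRC_map_conj hA g
          set L := B ⊔ M with hL
          have hML : M ≤ L := le_sup_right
          -- complements in `L`
          have comp : ∀ C : Subgroup G, IsRC r C → C ⊔ M = L →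
              IsComplement' (M.subgroupOf L) (C.subgroupOf L) := by
            intro C hC hCL
            have hCle : C ≤ L := by rw [← hCL]; exact le_sup_left
            have d1 : Nat.card (M.subgroupOf L) = Nat.card M :=
              Nat.card_congr (subgroupOfEquivOfLe hML).toEquiv
            have d2 : Nat.card (C.subgroupOf L) = Nat.card C :=
              Nat.card_congr (subgroupOfEquivOfLe hCle).toEquiv
            have hcop : Nat.Coprime (Nat.card M) (Nat.card C) := by
              rw [hl]; exact (hC.1.pow_right l).symm
            apply isComplement'_of_coprime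
            · rw [d1, d2]
              have h3 : Nat.card M * M.relIndex L = Nat.card L := by
                rw [← relIndex_bot_left, ← relIndex_bot_left]
                exact relIndex_mul_relIndex _ _ _ bot_le hML
              rw [← h3, ← hCL, relIndex_sup_right]
              congr 1
              have hdis : Disjoint M C := disjoint_of_coprime_natCard hcop
              rw [← inf_relIndex_right, hdis.eq_bot, relIndex_bot_left]
            · rw [d1, d2]; exact hcop
          have hcA := comp A' hA'RC hg
          have hcB := comp B hB rfl
          have hcopL : Nat.Coprime (Nat.card (M.subgroupOf L)) (M.subgroupOf L).index := by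
            rw [hcB.symm.index_eq_card]
            have hBle : B ≤ L := le_sup_left
            have d1 : Nat.card (M.subgroupOf L) = Nat.card M :=
              Nat.card_congr (subgroupOfEquivOfLe hML).toEquiv
            have d2 : Nat.card (B.subgroupOf L) = Nat.card B :=
              Nat.card_congr (subgroupOfEquivOfLe hBle).toEquiv
            rw [d1, d2, hl]
            exact (hB.1.pow_right l).symm
          obtain ⟨x, hx⟩ := conj_of_isComplement' (M.subgroupOf L) hcopL hcA hcB
          refine ⟨(x : G) * g, ?_⟩
          have hBle : B ≤ L := le_sup_left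
          have hAle : A' ≤ L := by rw [← hg]; exact le_sup_left
          have e1 : B = (B.subgroupOf L).map L.subtype := by
            rw [subgroupOf_map_subtype, inf_eq_left.2 hBle]
          have e2 : A' = (A'.subgroupOf L).map L.subtype := by
            rw [subgroupOf_map_subtype, inf_eq_left.2 hAle]
          rw [e1, hx, map_mul, map_map]
          have e3 : A.map (MulAut.conj (x : G) * MulAut.conj g).toMonoidHom =
              A'.map (MulAut.conj (x : G)).toMonoidHom := by
            rw [hA', map_map]; rfl
          rw [e3]
          conv_rhs => rw [e2]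
          rw [map_map]
          rfl

end Pool.Agent.H14
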