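import Pool.Agent.H14.PLProj

set_option autoImplicit false

namespace Pool.Agent.H14

open Set

/-- the closed annulus in the unit square -/
def InY (q : E2) : Prop :=
  (0 ≤ q 0 ∧ q 0 ≤ 1 ∧ 0 ≤ q 1 ∧ q 1 ≤ 1) ∧ (q 0 ≤ 1/3 ∨ 2/3 ≤ q 0 ∨ q 1 ≤ 1/3 ∨ 2/3 ≤ q 1)

/-- the closed inner square -/
def InC (q : E2) : Prop := 1/3 ≤ q 0 ∧ q 0 ≤ 2/3 ∧ 1/3 ≤ q 1 ∧ q 1 ≤ 2/3

lemma inY_J (k : ℤ) {q : E2} (h : InY q) : InY ((J ^ k) q) := by
  obtain ⟨⟨h1, h2, h3, h4⟩, h5⟩ := h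
  unfold InY
  rcases J_zpow_cases k q with ⟨-, e0, e1⟩ | ⟨-, e0, e1⟩ | ⟨-, e0, e1⟩ | ⟨-, e0, e1⟩ <;>
  rw [e0, e1] <;> refine ⟨⟨?_, ?_, ?_, ?_⟩, ?_⟩ <;> try linarith
  · exact h5
  · rcases h5 with h | h | h | h
    · right; right; left; linarith
    · right; right; right; linarith
    · right; left; linarith
    · left; linarith
  · rcases h5 with h | h | h | h
    · right; left; linarith
    · left; linarith
    · right; right; right; linarith
    · right; right; left; linarith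
  · rcases h5 with h | h | h | h
    · right; right; right; linarith
    · right; right; left; linarith
    · left; linarith
    · right; left; linarith

lemma inC_J (k : ℤ) {q : E2} (h : InC q) : InC ((J ^ k) q) := by
  obtain ⟨h1, h2, h3, h4⟩ := h
  unfold InC
  rcases J_zpow_cases k q with ⟨-, e0, e1⟩ | ⟨-, e0, e1⟩ | ⟨-, e0, e1⟩ | ⟨-, e0, e1⟩ <;>
  rw [e0, e1] <;> refine ⟨?_, ?_, ?_, ?_⟩ <;> linarith

lemma J_neg_cancel (k : ℤ) (q : E2) : (J ^ (-k)) ((J ^ k) q) = q := by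
  change (J ^ (-k) * J ^ k) q = q
  rw [← zpow_add, neg_add_cancel, zpow_zero]; rfl

lemma J_cancel_neg (k : ℤ) (q : E2) : (J ^ k) ((J ^ (-k)) q) = q := by
  change (J ^ k * J ^ (-k)) q = q
  rw [← zpow_add, add_neg_cancel, zpow_zero]; rfl

lemma proj_mem {p : E2} (hp : InX p) : InY (proj p) := by
  have np := nrm_level hp.2
  have hp0 : 0 ≤ ((2 : ℝ) ^ (-lev p) • p) 1 := (inX_smul (two_zpow_pos _) hp).1
  have rp := tauD_range hp0 np.1 np.2
  unfold proj
  apply inY_J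
  obtain ⟨h1, h2, h3, h4, -⟩ := rp
  refine ⟨⟨?_, ?_, ?_, ?_⟩, Or.inr (Or.inl h3)⟩ <;> linarith

lemma proj_not_inC {p : E2} (hp : InX p) (h1 : 0 < p 1) : ¬ InC (proj p) := by
  have np := nrm_level hp.2
  have hp0 : 0 ≤ ((2 : ℝ) ^ (-lev p) • p) 1 := (inX_smul (two_zpow_pos _) hp).1
  have hp1 : 0 < ((2 : ℝ) ^ (-lev p) • p) 1 := by
    simp only [Pi.smul_apply, smul_eq_mul]; exact mul_pos (two_zpow_pos _) h1
  have rp := tauD_range hp0 np.1 np.2
  intro h
  unfold proj at h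
  have h' := inC_J (-lev p) h
  rw [J_neg_cancel] at h'
  have := rp.2.2.2.2 hp1
  have := h'.2.1
  linarith

/-- sector charts, step one -/
lemma chart_sector {q : E2} (h1 : 1 - q 0 ≤ q 1) (h2 : q 1 ≤ q 0) (h3 : 2/3 ≤ q 0) (h4 : q 0 ≤ 1) :
    ∃ m, tauInv m q ∈ T m := by
  rcases le_total (5/6) (q 0) with h | h
  · rcases le_total (q 1) (5 * q 0 - 4) with h' | h'
    · refine ⟨0, ?_⟩
      rw [mem_T0, tauInv0]
      simp only [aff_zero, aff_one]
      refine ⟨?_, ?_, ?_⟩ <;> linarith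
    · refine ⟨1, ?_⟩
      rw [mem_T1, tauInv1]
      simp only [aff_zero, aff_one]
      refine ⟨?_, ?_, ?_⟩ <;> linarith
  · rcases le_total (q 1) (8/3 - 3 * q 0) with h' | h'
    · refine ⟨2, ?_⟩
      rw [mem_T2, tauInv2]
      simp only [aff_zero, aff_one]
      refine ⟨?_, ?_, ?_⟩ <;> linarith
    · refine ⟨3, ?_⟩
      rw [mem_T3, tauInv3]
      simp only [aff_zero, aff_one]
      refine ⟨?_, ?_, ?_⟩ <;> linarith

/-- sector charts -/
lemma chart {q : E2} (hq : InY q) :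
    ∃ (i m : Fin 4), tauInv m ((J ^ (-((i : ℕ) : ℤ))) q) ∈ T m := by
  obtain ⟨⟨h1, h2, h3, h4⟩, h5⟩ := hq
  -- find the sector
  have key : (1 - q 0 ≤ q 1 ∧ q 1 ≤ q 0 ∧ 2/3 ≤ q 0) ∨
      (1 - q 1 ≤ 1 - q 0 ∧ 1 - q 0 ≤ q 1 ∧ 2/3 ≤ q 1) ∨
      (q 0 ≤ 1 - q 1 ∧ 1 - q 1 ≤ 1 - q 0 ∧ 2/3 ≤ 1 - q 0) ∨
      (q 1 ≤ q 0 ∧ q 0 ≤ 1 - q 1 ∧ 2/3 ≤ 1 - q 1) := by
    rcases le_total (1 - q 0) (q 1) with ha | ha <;> rcases le_total (q 1) (q 0) with hb | hb
    · left; refine ⟨ha, hb, ?_⟩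
      rcases h5 with h | h | h | h <;> linarith
    · right; left; refine ⟨by linarith, ha, ?_⟩
      rcases h5 with h | h | h | h <;> linarith
    · right; right; right; refine ⟨hb, by linarith, ?_⟩
      rcases h5 with h | h | h | h <;> linarith
    · right; right; left; refine ⟨by linarith, by linarith, ?_⟩
      rcases h5 with h | h | h | h <;> linarith
  rcases key with ⟨a, b, c⟩ | ⟨a, b, c⟩ | ⟨a, b, c⟩ | ⟨a, b, c⟩
  · -- i = 0
    rcases J_zpow_cases (-(((0 : Fin 4) : ℕ) : ℤ)) q with ⟨h, e0, e1⟩ | ⟨h, e0, e1⟩ | ⟨h, e0, e1⟩ | ⟨h, e0, e1⟩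
    · obtain ⟨m, hm⟩ := chart_sector (q := (J ^ (-(((0 : Fin 4) : ℕ) : ℤ))) q)
        (by rw [e0, e1]; linarith) (by rw [e0, e1]; linarith) (by rw [e0]; linarith)
        (by rw [e0]; linarith)
      exact ⟨0, m, hm⟩
    all_goals simp at h
  · rcases J_zpow_cases (-(((1 : Fin 4) : ℕ) : ℤ)) q with ⟨h, e0, e1⟩ | ⟨h, e0, e1⟩ | ⟨h, e0, e1⟩ | ⟨h, e0, e1⟩
    · simp at h
    · simp at h
    · simp at h
    · obtain ⟨m, hm⟩ := chart_sector (q := (J ^ (-(((1 : Fin 4) : ℕ) : ℤ))) q)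
        (by rw [e0, e1]; linarith) (by rw [e0, e1]; linarith) (by rw [e0]; linarith)
        (by rw [e0]; linarith)
      exact ⟨1, m, hm⟩
  · rcases J_zpow_cases (-(((2 : Fin 4) : ℕ) : ℤ)) q with ⟨h, e0, e1⟩ | ⟨h, e0, e1⟩ | ⟨h, e0, e1⟩ | ⟨h, e0, e1⟩
    · simp at h
    · simp at h
    · obtain ⟨m, hm⟩ := chart_sector (q := (J ^ (-(((2 : Fin 4) : ℕ) : ℤ))) q)
        (by rw [e0, e1]; linarith) (by rw [e0, e1]; linarith) (by rw [e0]; linarith)
        (by rw [e0]; linarith)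
      exact ⟨2, m, hm⟩
    · simp at h
  · rcases J_zpow_cases (-(((3 : Fin 4) : ℕ) : ℤ)) q with ⟨h, e0, e1⟩ | ⟨h, e0, e1⟩ | ⟨h, e0, e1⟩ | ⟨h, e0, e1⟩
    · simp at h
    · obtain ⟨m, hm⟩ := chart_sector (q := (J ^ (-(((3 : Fin 4) : ℕ) : ℤ))) q)
        (by rw [e0, e1]; linarith) (by rw [e0, e1]; linarith) (by rw [e0]; linarith)
        (by rw [e0]; linarith)
      exact ⟨3, m, hm⟩
    · simp at h
    · simp at h

/-- chart map -/
noncomputable def alpha (i m : Fin 4) : E2 →ᵃ[ℝ] E2 :=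
  (tauInv m).comp ((J ^ (-((i : ℕ) : ℤ)) : E2 ≃ᵃ[ℝ] E2) : E2 →ᵃ[ℝ] E2)

lemma alpha_apply (i m : Fin 4) (q : E2) :
    alpha i m q = tauInv m ((J ^ (-((i : ℕ) : ℤ))) q) := rfl

lemma T_inX {m : Fin 4} {p : E2} (h : p ∈ T m) : InX p := by
  obtain ⟨h1, h2, h3⟩ := T_nrm h
  exact ⟨h1, by linarith⟩

lemma proj_alpha {i m : Fin 4} {q : E2} (h : alpha i m q ∈ T m) :
    proj ((2 : ℝ) ^ ((i : ℕ) : ℤ) • alpha i m q) = q := by
  have h' : (2 : ℝ) ^ (-((i : ℕ) : ℤ)) • ((2 : ℝ) ^ ((i : ℕ) : ℤ) • alpha i m q) ∈ T m := by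
    rw [smul_smul, ← zpow_add₀ (by norm_num), neg_add_cancel, zpow_zero, one_smul]; exact h
  rw [proj_eq h', smul_smul, ← zpow_add₀ (by norm_num), neg_add_cancel, zpow_zero, one_smul,
    alpha_apply, tau_tauInv, J_cancel_neg]

lemma proj_surj {q : E2} (hq : InY q) : ∃ p, InX p ∧ proj p = q := by
  obtain ⟨i, m, h⟩ := chart hq
  exact ⟨_, inX_smul (two_zpow_pos _) (T_inX h), proj_alpha h⟩

/-- section of `proj` -/
noncomputable def sec (q : E2) : E2 :=
  open Classical in if h : ∃ p, InX p ∧ proj p = q then h.choose else q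

lemma sec_spec {q : E2} (hq : InY q) : InX (sec q) ∧ proj (sec q) = q := by
  have h := proj_surj hq
  unfold sec
  rw [dif_pos h]
  exact h.choose_spec

/-- the linear action on the half plane -/
noncomputable def act (b d : ℝ) : E2 →ᵃ[ℝ] E2 := aff 1 b 0 0 d 0

lemma act_zero (b d : ℝ) (p : E2) : act b d p 0 = p 0 + b * p 1 := by
  unfold act; rw [aff_zero]; ring
lemma act_one (b d : ℝ) (p : E2) : act b d p 1 = d * p 1 := by
  unfold act; rw [aff_one]; ring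

lemma act_smul (b d c : ℝ) (p : E2) : act b d (c • p) = c • act b d p := by
  apply ext2
  · simp only [act_zero, Pi.smul_apply, smul_eq_mul]; ring
  · simp only [act_one, Pi.smul_apply, smul_eq_mul]; ring

lemma act_act (b d b' d' : ℝ) (p : E2) :
    act b d (act b' d' p) = act (b' + b * d') (d * d') p := by
  apply ext2
  · simp only [act_zero, act_one]; ring
  · simp only [act_one]; ring

lemma act_inX {b d : ℝ} (hd : 0 < d) {p : E2} (hp : InX p) : InX (act b d p) := by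
  obtain ⟨h0, h1⟩ := hp
  unfold nrm at h1
  refine ⟨?_, ?_⟩
  · rw [act_one]; exact mul_nonneg hd.le h0
  · unfold nrm
    rw [act_zero, act_one]
    rcases h0.lt_or_eq with h | h
    · have := mul_pos hd h
      have := abs_nonneg (p 0 + b * p 1)
      linarith
    · rw [← h] at h1 ⊢
      simpa using h1

/-- The action on the square. -/
noncomputable def F (b d : ℝ) (q : E2) : E2 :=
  open Classical in if InY q then proj (act b d (sec q)) else q

lemma F_proj {b d : ℝ} (hd : 0 < d) {p : E2} (hp : InX p) :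
    F b d (proj p) = proj (act b d p) := by
  have hY := proj_mem hp
  unfold F
  rw [if_pos hY]
  obtain ⟨h1, h2⟩ := sec_spec hY
  obtain ⟨k, hk⟩ := proj_inj h1 hp h2
  conv_rhs => rw [hk, act_smul, proj_smul (act_inX hd h1).2]

lemma F_inY {b d : ℝ} (hd : 0 < d) {q : E2} (hq : InY q) : InY (F b d q) := by
  unfold F
  rw [if_pos hq]
  exact proj_mem (act_inX hd (sec_spec hq).1)

lemma F_of_not {b d : ℝ} {q : E2} (hq : ¬ InY q) : F b d q = q := by
  unfold F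
  rw [if_neg hq]

lemma F_F {b d b' d' : ℝ} (hd : 0 < d) (hd' : 0 < d') (q : E2) :
    F b d (F b' d' q) = F (b' + b * d') (d * d') q := by
  by_cases hq : InY q
  · obtain ⟨p, hp, rfl⟩ := proj_surj hq
    rw [F_proj hd' hp, F_proj hd (act_inX hd' hp), F_proj (mul_pos hd hd') hp, act_act]
  · rw [F_of_not hq, F_of_not hq, F_of_not hq]

lemma F_id (q : E2) : F 0 1 q = q := by
  by_cases hq : InY q
  · obtain ⟨p, hp, rfl⟩ := proj_surj hq
    rw [F_proj one_pos hp]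
    congr 1
    apply ext2
    · rw [act_zero]; ring
    · rw [act_one]; ring
  · rw [F_of_not hq]

lemma F_inC {b d : ℝ} (hd : 0 < d) {q : E2} (hq : InC q) : F b d q = q := by
  by_cases hY : InY q
  · obtain ⟨p, hp, rfl⟩ := proj_surj hY
    have h1 : p 1 = 0 := by
      by_contra hne
      exact proj_not_inC hp (lt_of_le_of_ne hp.1 (Ne.symm hne)) hq
    rw [F_proj hd hp]
    congr 1
    apply ext2
    · rw [act_zero, h1]; ring
    · rw [act_one, h1]; ring
  · exact F_of_not hY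

lemma F_cube {b d : ℝ} (hd : 0 < d) {q : E2} (hq : q ∈ Icc (0 : E2) 1) :
    F b d q ∈ Icc (0 : E2) 1 := by
  by_cases hY : InY q
  · have h := (F_inY (b := b) hd hY).1
    constructor
    · intro i; fin_cases i
      · exact h.1
      · exact h.2.2.1
    · intro i; fin_cases i
      · exact h.2.1
      · exact h.2.2.2
  · rw [F_of_not hY]; exact hq

lemma F_faithful {b d : ℝ} (hd : 0 < d) (h : ∀ q ∈ Icc (0 : E2) 1, F b d q = q) :
    b = 0 ∧ d = 1 := by
  have hcube : ∀ p : E2, InX p → proj p ∈ Icc (0 : E2) 1 := by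
    intro p hp
    have h := (proj_mem hp).1
    constructor
    · intro i; fin_cases i
      · exact h.1
      · exact h.2.2.1
    · intro i; fin_cases i
      · exact h.2.1
      · exact h.2.2.2
  have key : ∀ p : E2, InX p → ∃ k : ℤ, act b d p = (2 : ℝ) ^ (4 * k) • p := by
    intro p hp
    have h1 := h _ (hcube p hp)
    rw [F_proj hd hp] at h1
    exact proj_inj hp (act_inX hd hp) h1.symm
  have x1 : InX (![0, 1] : E2) := by
    refine ⟨?_, ?_⟩
    · simp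
    · unfold nrm; simp
  have x2 : InX (![1, 1] : E2) := by
    refine ⟨?_, ?_⟩
    · simp
    · unfold nrm; simp
  obtain ⟨k, hk⟩ := key _ x1
  obtain ⟨l, hl⟩ := key _ x2
  have hb : b = 0 := by
    have := congrFun hk 0
    rw [act_zero] at this
    simpa using this
  have e0 := congrFun hl 0
  have e1 := congrFun hl 1
  rw [act_zero] at e0
  rw [act_one] at e1
  simp only [Matrix.cons_val_zero, Matrix.cons_val_one, hb, Pi.smul_apply, smul_eq_mul] at e0 e1
  refine ⟨hb, ?_⟩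
  linarith

end Pool.Agent.H14
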