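import Mathlib

set_option autoImplicit false

namespace Pool.Agent.H14

open Set MvPolynomial

/-- There are three (in fact any finite number of) algebraically independent reals. -/
theorem exists_algInd : ∃ x : Fin 3 → ℝ, AlgebraicIndependent ℚ x := by
  obtain ⟨s, hs⟩ := exists_isTranscendenceBasis ℚ ℝ
  have hinf : Infinite s := by
    by_contra hfin
    rw [not_infinite_iff_finite] at hfin
    have halg := hs.isAlgebraic
    have hc : Countable (MvPolynomial s ℚ) := by
      have : Countable s := inferInstance
      rw [← Cardinal.mk_le_aleph0_iff]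
      refine (MvPolynomial.cardinalMk_le_max).trans ?_
      simp only [sup_le_iff]
      refine ⟨⟨?_, ?_⟩, le_refl _⟩
      · exact Cardinal.mk_le_aleph0
      · exact Cardinal.mk_le_aleph0
    have hc2 : Countable (Algebra.adjoin ℚ (range ((↑) : s → ℝ))) := by
      rw [Algebra.adjoin_range_eq_range_aeval]
      exact (countable_range (MvPolynomial.aeval (R := ℚ) ((↑) : s → ℝ))).to_subtype
    have h1 := Algebra.IsAlgebraic.cardinalMk_le_max (Algebra.adjoin ℚ (range ((↑) : s → ℝ))) ℝ
    have h2 : Cardinal.mk ℝ ≤ Cardinal.aleph0 := by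
      refine h1.trans ?_
      simp only [sup_le_iff]
      exact ⟨Cardinal.mk_le_aleph0, le_refl _⟩
    rw [Cardinal.mk_real] at h2
    exact absurd h2 (not_le.2 Cardinal.aleph0_lt_continuum)
  let e : Fin 3 ↪ s := (Fin.valEmbedding).trans (Infinite.natEmbedding s)
  exact ⟨((↑) : s → ℝ) ∘ e, hs.1.comp e e.injective⟩

/-- Exponential form of algebraic independence. -/
theorem exists_exponents : ∃ s : Fin 3 → ℝ, ∀ l : List ((Fin 3 → ℤ) × ℤ),
    (l.map Prod.fst).Nodup →
    (l.map (fun p : (Fin 3 → ℤ) × ℤ => (p.2 : ℝ) * Real.exp (-(∑ i, (p.1 i : ℝ) * s i)))).sum = 0 →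
    ∀ p ∈ l, p.2 = 0 := by
  obtain ⟨x, hx⟩ := exists_algInd
  have hx0 : ∀ i, x i ≠ 0 := fun i => hx.ne_zero i
  have hpos : ∀ i, 0 < (x i) ^ 2 := fun i => by positivity [hx0 i]
  refine ⟨fun i => Real.log ((x i) ^ 2), fun l hl hsum => ?_⟩
  -- common shift
  obtain ⟨M, hM⟩ : ∃ M : ℕ, ∀ p ∈ l, ∀ i, p.1 i ≤ (M : ℤ) := by
    clear hl hsum
    induction l with
    | nil => exact ⟨0, by simp⟩
    | cons a l ih =>
      obtain ⟨M, hM⟩ := ih
      refine ⟨M + (a.1 0).toNat + (a.1 1).toNat + (a.1 2).toNat, ?_⟩
      intro p hp i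
      rcases List.mem_cons.1 hp with rfl | hp
      · fin_cases i
        · change p.1 0 ≤ _; push_cast; have := Int.self_le_toNat (p.1 0); omega
        · change p.1 1 ≤ _; push_cast; have := Int.self_le_toNat (p.1 1); omega
        · change p.1 2 ≤ _; push_cast; have := Int.self_le_toNat (p.1 2); omega
      · have := hM p hp i
        push_cast
        omega
  let ex : (Fin 3 → ℤ) → (Fin 3 →₀ ℕ) := fun v => Finsupp.equivFunOnFinite.symm
    (fun i => 2 * ((M : ℤ) - v i).toNat)
  have hexp : ∀ p ∈ l, Real.exp (-(∑ i, (p.1 i : ℝ) * Real.log ((x i) ^ 2))) *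
      (∏ i, (x i) ^ (2 * M)) = ∏ i, (x i) ^ (ex p.1 i) := by
    intro p hp
    rw [← Finset.sum_neg_distrib, Real.exp_sum, ← Finset.prod_mul_distrib]
    refine Finset.prod_congr rfl fun i _ => ?_
    have h1 : ex p.1 i = 2 * ((M : ℤ) - p.1 i).toNat := rfl
    rw [h1, pow_mul, pow_mul]
    have h2 : Real.exp (-((p.1 i : ℝ) * Real.log ((x i) ^ 2))) = ((x i) ^ 2) ^ (-(p.1 i)) := by
      rw [← Real.rpow_intCast, Real.rpow_def_of_pos (hpos i)]
      congr 1
      push_cast
      ring
    rw [h2]
    have hy := hpos i
    generalize x i ^ 2 = y at hy ⊢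
    rw [← zpow_natCast y, ← zpow_natCast y, ← zpow_add₀ hy.ne']
    congr 1
    rw [Int.toNat_of_nonneg (by have := hM p hp i; omega)]
    ring
  let Q : MvPolynomial (Fin 3) ℚ := (l.map (fun p => monomial (ex p.1) (p.2 : ℚ))).sum
  have hQ : aeval x Q = 0 := by
    have h1 : aeval x Q = (l.map (fun p : (Fin 3 → ℤ) × ℤ => (p.2 : ℝ) *
        Real.exp (-(∑ i, (p.1 i : ℝ) * Real.log ((x i) ^ 2))))).sum * (∏ i, (x i) ^ (2 * M)) := by
      rw [← List.sum_map_mul_right]
      simp only [Q]
      rw [map_list_sum, List.map_map]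
      congr 1
      refine List.map_congr_left fun p hp => ?_
      simp only [Function.comp]
      rw [aeval_monomial, mul_assoc, hexp p hp]
      congr 1
      rw [Finsupp.prod_fintype _ _ (by simp)]
    rw [h1, hsum, zero_mul]
  have hQ0 : Q = 0 := by
    have := hx
    rw [algebraicIndependent_iff] at this
    exact this Q hQ
  have hinj : ∀ p ∈ l, ∀ q ∈ l, ex p.1 = ex q.1 → p.1 = q.1 := by
    intro p hp q hq h
    funext i
    have h1 := DFunLike.congr_fun h i
    have h2 : 2 * ((M : ℤ) - p.1 i).toNat = 2 * ((M : ℤ) - q.1 i).toNat := h1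
    have h3 := hM p hp i
    have h4 := hM q hq i
    omega
  -- extract coefficients
  intro p hp
  have hcoef : coeff (ex p.1) Q = (p.2 : ℚ) := by
    have gen : ∀ l' : List ((Fin 3 → ℤ) × ℤ), (∀ q ∈ l', q ∈ l) → (l'.map Prod.fst).Nodup →
        coeff (ex p.1) (l'.map (fun p => monomial (ex p.1) (p.2 : ℚ))).sum =
          if p ∈ l' then (p.2 : ℚ) else 0 := by
      intro l' hsub hnd
      induction l' with
      | nil => simp
      | cons a l' ih =>
        rw [List.map_cons, List.sum_cons, coeff_add, ih (fun q hq => hsub q (List.mem_cons_of_mem _ hq))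
          (by rw [List.map_cons, List.nodup_cons] at hnd; exact hnd.2)]
        rw [List.map_cons, List.nodup_cons] at hnd
        rw [coeff_monomial]
        by_cases hap : ex a.1 = ex p.1
        · have h1 : a.1 = p.1 := hinj a (hsub a List.mem_cons_self) p hp hap
          -- then `p ∉ l'` and `a = p`
          have hnot : p ∉ l' := by
            intro hpl
            apply hnd.1
            rw [h1]
            exact List.mem_map_of_mem hpl
          have hap2 : a = p := by
            -- both in `l` with the same first component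
            have hmem := hsub a List.mem_cons_self
            by_contra hne
            exact hne (List.inj_on_of_nodup_map hl hmem hp h1)
          rw [if_pos hap, if_neg hnot, add_zero, if_pos (by rw [hap2]; exact List.mem_cons_self), hap2]
        · have hne : a ≠ p := fun h => hap (by rw [h])
          rw [if_neg hap, zero_add]
          by_cases hpl : p ∈ l'
          · rw [if_pos hpl, if_pos (List.mem_cons_of_mem _ hpl)]
          · rw [if_neg hpl, if_neg]
            intro h
            rcases List.mem_cons.1 h with h | h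
            · exact hne h.symm
            · exact hpl h
    have := gen l (fun q hq => hq) hl
    rw [if_pos hp] at this
    exact this
  rw [hQ0, coeff_zero] at hcoef
  exact_mod_cast hcoef.symm

end Pool.Agent.H14
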