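import Mathlib

set_option autoImplicit false

namespace Pool.Agent.H14

open Set

/-- The plane. -/
abbrev E2 := Fin 2 → ℝ

/-- A bounded finite intersection of closed half-spaces is the convex hull of a finite set. -/
theorem exists_finset_convexHull (s : Finset (E2 →ᵃ[ℝ] ℝ))
    (hb : Bornology.IsBounded {x : E2 | ∀ f ∈ s, 0 ≤ f x}) :
    ∃ S : Finset E2, {x : E2 | ∀ f ∈ s, 0 ≤ f x} = convexHull ℝ (S : Set E2) := by
  classical
  set K : Set E2 := {x : E2 | ∀ f ∈ s, 0 ≤ f x} with hK
  have hcont : ∀ f : E2 →ᵃ[ℝ] ℝ, Continuous f := fun f => f.continuous_of_finiteDimensional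
  have hclosed : IsClosed K := by
    have : K = ⋂ f ∈ s, {x : E2 | 0 ≤ f x} := by
      ext x; simp [hK]
    rw [this]
    exact isClosed_biInter fun f _ => isClosed_le continuous_const (hcont f)
  have hcomp : IsCompact K := Metric.isCompact_of_isClosed_isBounded hclosed hb
  have hconv : Convex ℝ K := by
    intro x hx y hy a b ha hb hab f hf
    have h1 : f (a • x + b • y) = a • f x + b • f y := by
      exact Convex.combo_affine_apply hab
    rw [h1]
    have := hx f hf
    have := hy f hf
    simp only [smul_eq_mul]
    positivity
  have hfin : (K.extremePoints ℝ).Finite := by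
    have hinj : Set.InjOn (fun x : E2 => s.filter (fun f => f x = 0)) (K.extremePoints ℝ) := by
      intro x hx y hy hxy
      simp only at hxy
      by_contra hne
      -- direction
      have hxK : x ∈ K := hx.1
      have key : ∀ f ∈ s, ∃ ε > (0:ℝ), ∀ t : ℝ, |t| ≤ ε → 0 ≤ f (AffineMap.lineMap x y t) := by
        intro f hf
        have hval : ∀ t : ℝ, f (AffineMap.lineMap x y t) = (1 - t) * f x + t * f y := by
          intro t
          rw [AffineMap.apply_lineMap, AffineMap.lineMap_apply_module]
          simp
        by_cases h0 : f x = 0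
        · have : f ∈ s.filter (fun f => f x = 0) := by simp [hf, h0]
          rw [hxy] at this
          have hy0 : f y = 0 := by simpa [hf] using this
          refine ⟨1, one_pos, fun t _ => ?_⟩
          rw [hval, h0, hy0]; simp
        · have hpos : 0 < f x := lt_of_le_of_ne (hxK f hf) (Ne.symm h0)
          refine ⟨f x / (1 + |f y - f x|), by positivity, fun t ht => ?_⟩
          rw [hval]
          have h1 : |t * (f y - f x)| ≤ f x := by
            rw [abs_mul]
            have h2 : |t| * |f y - f x| ≤ (f x / (1 + |f y - f x|)) * |f y - f x| :=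
              mul_le_mul_of_nonneg_right ht (abs_nonneg _)
            have h3 : (f x / (1 + |f y - f x|)) * |f y - f x| ≤ f x := by
              rw [div_mul_eq_mul_div, div_le_iff₀ (by positivity)]
              nlinarith [abs_nonneg (f y - f x)]
            linarith
          have := (abs_le.mp h1).1
          nlinarith
      choose! ε hε hε' using key
      obtain ⟨δ, hδ, hδ'⟩ : ∃ δ > (0:ℝ), ∀ f ∈ s, δ ≤ ε f := by
        rcases s.eq_empty_or_nonempty with h | h
        · exact ⟨1, one_pos, by simp [h]⟩
        · refine ⟨s.inf' h ε, ?_, fun f hf => Finset.inf'_le _ hf⟩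
          rw [gt_iff_lt, Finset.lt_inf'_iff]
          exact fun f hf => hε f hf
      have h1 : AffineMap.lineMap x y δ ∈ K := fun f hf =>
        hε' f hf δ (by rw [abs_of_pos hδ]; exact hδ' f hf)
      have h2 : AffineMap.lineMap x y (-δ) ∈ K := fun f hf =>
        hε' f hf (-δ) (by rw [abs_neg, abs_of_pos hδ]; exact hδ' f hf)
      have h3 : x ∈ openSegment ℝ (AffineMap.lineMap x y δ) (AffineMap.lineMap x y (-δ)) := by
        refine ⟨1/2, 1/2, by norm_num, by norm_num, by norm_num, ?_⟩
        simp only [AffineMap.lineMap_apply_module]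
        ext i
        simp
        ring
      have h4 := hx.2 h1 h2 h3
      have h5 : (AffineMap.lineMap x y δ : E2) = x := h4
      rw [AffineMap.lineMap_eq_left_iff] at h5
      rcases h5 with h5 | h5
      · exact hne h5
      · exact hδ.ne' h5
    refine Set.Finite.of_finite_image ?_ hinj
    exact (Finset.finite_toSet s.powerset).subset (by
      rintro _ ⟨x, _, rfl⟩
      simp only [Finset.coe_powerset, Set.mem_preimage, Set.mem_powerset_iff, Finset.coe_subset]
      exact Finset.filter_subset _ _)
  refine ⟨hfin.toFinset, ?_⟩
  have h := closure_convexHull_extremePoints hcomp hconv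
  rw [(hfin.isClosed_convexHull ℝ).closure_eq] at h
  simp only [Set.Finite.coe_toFinset]
  exact h.symm

end Pool.Agent.H14
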