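import Pool.Agent.H14.PLBasic

set_option autoImplicit false

namespace Pool.Agent.H14

open Set

/-- affine functional `a x + b y + c`. -/
noncomputable def lin (a b c : ℝ) : E2 →ᵃ[ℝ] ℝ :=
  (a • LinearMap.proj 0 + b • LinearMap.proj 1 : E2 →ₗ[ℝ] ℝ).toAffineMap + AffineMap.const ℝ E2 c

@[simp] lemma lin_apply (a b c : ℝ) (p : E2) : lin a b c p = a * p 0 + b * p 1 + c := by
  simp [lin]

/-- affine self-map of the plane. -/
noncomputable def aff (a b c a' b' c' : ℝ) : E2 →ᵃ[ℝ] E2 :=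
  AffineMap.pi ![lin a b c, lin a' b' c']

@[simp] lemma aff_zero (a b c a' b' c' : ℝ) (p : E2) :
    aff a b c a' b' c' p 0 = a * p 0 + b * p 1 + c := by
  simp [aff]

@[simp] lemma aff_one (a b c a' b' c' : ℝ) (p : E2) :
    aff a b c a' b' c' p 1 = a' * p 0 + b' * p 1 + c' := by
  simp [aff]

/-- the linear part of the rotation -/
def Jlin : E2 ≃ₗ[ℝ] E2 where
  toFun p := ![-p 1, p 0]
  map_add' p q := by ext i; fin_cases i <;> simp [add_comm]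
  map_smul' c p := by ext i; fin_cases i <;> simp
  invFun p := ![p 1, -p 0]
  left_inv p := by ext i; fin_cases i <;> simp
  right_inv p := by ext i; fin_cases i <;> simp

/-- rotation of the unit square by a quarter turn -/
def J : E2 ≃ᵃ[ℝ] E2 where
  toFun p := ![1 - p 1, p 0]
  invFun p := ![p 1, 1 - p 0]
  left_inv p := by ext i; fin_cases i <;> simp
  right_inv p := by ext i; fin_cases i <;> simp
  linear := Jlin
  map_vadd' p v := by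
    ext i; fin_cases i
    · simp [Jlin]; ring
    · simp [Jlin]

@[simp] lemma J_zero (p : E2) : J p 0 = 1 - p 1 := rfl
@[simp] lemma J_one (p : E2) : J p 1 = p 0 := rfl

lemma J_pow_two (p : E2) : (J ^ 2) p = ![1 - p 0, 1 - p 1] := by
  rw [pow_two]
  ext i; fin_cases i
  · change J (J p) 0 = _; simp
  · change J (J p) 1 = _; simp

lemma J_pow_three (p : E2) : (J ^ 3) p = ![p 1, 1 - p 0] := by
  rw [pow_succ]
  change (J ^ 2) (J p) = _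
  rw [J_pow_two]
  ext i; fin_cases i
  · simp
  · simp

lemma J_pow_four : J ^ 4 = 1 := by
  ext p i
  have : (J ^ 4) p = (J ^ 2) ((J ^ 2) p) := by
    rw [show (4 : ℕ) = 2 + 2 from rfl, pow_add]; rfl
  rw [this, J_pow_two, J_pow_two]
  fin_cases i <;> simp

lemma J_zpow_mod (k : ℤ) : J ^ k = J ^ (k % 4).toNat := by
  have h : k = 4 * (k / 4) + k % 4 := by omega
  conv_lhs => rw [h]
  rw [zpow_add, zpow_mul]
  have h4 : J ^ (4 : ℤ) = 1 := by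
    have := J_pow_four
    exact_mod_cast this
  rw [h4, one_zpow, one_mul]
  have h0 : 0 ≤ k % 4 := Int.emod_nonneg _ (by norm_num)
  conv_lhs => rw [← Int.toNat_of_nonneg h0]
  rw [zpow_natCast]

/-- `J ^ k` in coordinates. -/
lemma J_zpow_cases (k : ℤ) (p : E2) :
    (k % 4 = 0 ∧ (J ^ k) p 0 = p 0 ∧ (J ^ k) p 1 = p 1) ∨
    (k % 4 = 1 ∧ (J ^ k) p 0 = 1 - p 1 ∧ (J ^ k) p 1 = p 0) ∨
    (k % 4 = 2 ∧ (J ^ k) p 0 = 1 - p 0 ∧ (J ^ k) p 1 = 1 - p 1) ∨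
    (k % 4 = 3 ∧ (J ^ k) p 0 = p 1 ∧ (J ^ k) p 1 = 1 - p 0) := by
  rw [J_zpow_mod]
  have h0 : 0 ≤ k % 4 := Int.emod_nonneg _ (by norm_num)
  have h1 : k % 4 < 4 := Int.emod_lt_of_pos _ (by norm_num)
  have h : k % 4 = 0 ∨ k % 4 = 1 ∨ k % 4 = 2 ∨ k % 4 = 3 := by omega
  rcases h with h | h | h | h <;> rw [h]
  · left; simp
  · right; left; simp
  · right; right; left
    have : ((2 : ℤ).toNat) = 2 := rfl
    rw [this, J_pow_two]; simp
  · right; right; right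
    have : ((3 : ℤ).toNat) = 3 := rfl
    rw [this, J_pow_three]; simp

/-- the functionals cutting out the four triangles of the fundamental domain -/
noncomputable def Tf : Fin 4 → List (E2 →ᵃ[ℝ] ℝ) :=
  ![[lin 0 1 0, lin 1 1 (-1), lin (-1) (-2) 2],
    [lin 1 0 0, lin 1 2 (-2), lin (-1) (-1) 2],
    [lin 0 1 0, lin (-1) 1 (-1), lin 1 (-2) 2],
    [lin (-1) 0 0, lin (-1) 2 (-2), lin 1 (-1) 2]]

/-- the four triangles -/
def T (m : Fin 4) : Set E2 := {p | ∀ f ∈ Tf m, 0 ≤ f p}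

lemma mem_T0 (p : E2) : p ∈ T 0 ↔ 0 ≤ p 1 ∧ 1 ≤ p 0 + p 1 ∧ p 0 + 2 * p 1 ≤ 2 := by
  have h : Tf 0 = [lin 0 1 0, lin 1 1 (-1), lin (-1) (-2) 2] := rfl
  simp only [T, h, Set.mem_ofPred_eq, List.mem_cons, List.not_mem_nil, or_false,
    forall_eq_or_imp, forall_eq, lin_apply]
  constructor
  · rintro ⟨h1, h2, h3⟩; refine ⟨?_, ?_, ?_⟩ <;> linarith
  · rintro ⟨h1, h2, h3⟩; refine ⟨?_, ?_, ?_⟩ <;> linarith

lemma mem_T1 (p : E2) : p ∈ T 1 ↔ 0 ≤ p 0 ∧ 2 ≤ p 0 + 2 * p 1 ∧ p 0 + p 1 ≤ 2 := by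
  have h : Tf 1 = [lin 1 0 0, lin 1 2 (-2), lin (-1) (-1) 2] := rfl
  simp only [T, h, Set.mem_ofPred_eq, List.mem_cons, List.not_mem_nil, or_false,
    forall_eq_or_imp, forall_eq, lin_apply]
  constructor
  · rintro ⟨h1, h2, h3⟩; refine ⟨?_, ?_, ?_⟩ <;> linarith
  · rintro ⟨h1, h2, h3⟩; refine ⟨?_, ?_, ?_⟩ <;> linarith

lemma mem_T2 (p : E2) : p ∈ T 2 ↔ 0 ≤ p 1 ∧ 1 ≤ -p 0 + p 1 ∧ -p 0 + 2 * p 1 ≤ 2 := by
  have h : Tf 2 = [lin 0 1 0, lin (-1) 1 (-1), lin 1 (-2) 2] := rfl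
  simp only [T, h, Set.mem_ofPred_eq, List.mem_cons, List.not_mem_nil, or_false,
    forall_eq_or_imp, forall_eq, lin_apply]
  constructor
  · rintro ⟨h1, h2, h3⟩; refine ⟨?_, ?_, ?_⟩ <;> linarith
  · rintro ⟨h1, h2, h3⟩; refine ⟨?_, ?_, ?_⟩ <;> linarith

lemma mem_T3 (p : E2) : p ∈ T 3 ↔ p 0 ≤ 0 ∧ 2 ≤ -p 0 + 2 * p 1 ∧ -p 0 + p 1 ≤ 2 := by
  have h : Tf 3 = [lin (-1) 0 0, lin (-1) 2 (-2), lin 1 (-1) 2] := rfl
  simp only [T, h, Set.mem_ofPred_eq, List.mem_cons, List.not_mem_nil, or_false,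
    forall_eq_or_imp, forall_eq, lin_apply]
  constructor
  · rintro ⟨h1, h2, h3⟩; refine ⟨?_, ?_, ?_⟩ <;> linarith
  · rintro ⟨h1, h2, h3⟩; refine ⟨?_, ?_, ?_⟩ <;> linarith

/-- the affine charts -/
noncomputable def tau : Fin 4 → E2 →ᵃ[ℝ] E2 :=
  ![aff 0 (-1/6) 1 1 (7/6) (-1),
    aff (1/12) 0 (5/6) (3/4) (2/3) (-1/2),
    aff 0 (1/6) (2/3) (-1/3) (1/6) 0,
    aff (1/12) 0 (5/6) (-7/12) (2/3) (-1/2)]

/-- their inverses -/
noncomputable def tauInv : Fin 4 → E2 →ᵃ[ℝ] E2 :=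
  ![aff 7 1 (-6) (-6) 0 6,
    aff 12 0 (-10) (-27/2) (3/2) 12,
    aff 3 (-3) (-2) 6 0 (-4),
    aff 12 0 (-10) (21/2) (3/2) (-8)]

lemma tau0 : tau 0 = aff 0 (-1/6) 1 1 (7/6) (-1) := rfl
lemma tau1 : tau 1 = aff (1/12) 0 (5/6) (3/4) (2/3) (-1/2) := rfl
lemma tau2 : tau 2 = aff 0 (1/6) (2/3) (-1/3) (1/6) 0 := rfl
lemma tau3 : tau 3 = aff (1/12) 0 (5/6) (-7/12) (2/3) (-1/2) := rfl
lemma tauInv0 : tauInv 0 = aff 7 1 (-6) (-6) 0 6 := rfl
lemma tauInv1 : tauInv 1 = aff 12 0 (-10) (-27/2) (3/2) 12 := rfl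
lemma tauInv2 : tauInv 2 = aff 3 (-3) (-2) 6 0 (-4) := rfl
lemma tauInv3 : tauInv 3 = aff 12 0 (-10) (21/2) (3/2) (-8) := rfl

lemma tau_tauInv (m : Fin 4) (q : E2) : tau m (tauInv m q) = q := by
  fin_cases m
  · change tau 0 (tauInv 0 q) = q
    rw [tau0, tauInv0]; ext i; fin_cases i
    · change aff _ _ _ _ _ _ _ 0 = q 0
      rw [aff_zero, aff_zero, aff_one]; ring
    · change aff _ _ _ _ _ _ _ 1 = q 1
      rw [aff_one, aff_zero, aff_one]; ring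
  · change tau 1 (tauInv 1 q) = q
    rw [tau1, tauInv1]; ext i; fin_cases i
    · change aff _ _ _ _ _ _ _ 0 = q 0
      rw [aff_zero, aff_zero, aff_one]; ring
    · change aff _ _ _ _ _ _ _ 1 = q 1
      rw [aff_one, aff_zero, aff_one]; ring
  · change tau 2 (tauInv 2 q) = q
    rw [tau2, tauInv2]; ext i; fin_cases i
    · change aff _ _ _ _ _ _ _ 0 = q 0
      rw [aff_zero, aff_zero, aff_one]; ring
    · change aff _ _ _ _ _ _ _ 1 = q 1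
      rw [aff_one, aff_zero, aff_one]; ring
  · change tau 3 (tauInv 3 q) = q
    rw [tau3, tauInv3]; ext i; fin_cases i
    · change aff _ _ _ _ _ _ _ 0 = q 0
      rw [aff_zero, aff_zero, aff_one]; ring
    · change aff _ _ _ _ _ _ _ 1 = q 1
      rw [aff_one, aff_zero, aff_one]; ring

end Pool.Agent.H14
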