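import Pool.Agent.H14.PLPieces
import Pool.Agent.H14.PLAlg

set_option autoImplicit false

namespace Pool.Agent.H14

open Set

/-- The permutation of the square given by `(x, y) ↦ (x + b y, e ^ s y)` on the annulus. -/
noncomputable def P (b s : ℝ) : Equiv.Perm (Icc (0 : E2) 1) where
  toFun x := ⟨F b (Real.exp s) x.1, F_cube (Real.exp_pos s) x.2⟩
  invFun x := ⟨F (-b * Real.exp (-s)) (Real.exp (-s)) x.1, F_cube (Real.exp_pos _) x.2⟩
  left_inv x := by
    apply Subtype.ext
    change F _ _ (F _ _ x.1) = x.1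
    rw [F_F (Real.exp_pos _) (Real.exp_pos _), ← Real.exp_add, neg_add_cancel, Real.exp_zero,
      mul_assoc, ← Real.exp_add, neg_add_cancel, Real.exp_zero, mul_one, add_neg_cancel, F_id]
  right_inv x := by
    apply Subtype.ext
    change F _ _ (F _ _ x.1) = x.1
    rw [F_F (Real.exp_pos _) (Real.exp_pos _), ← Real.exp_add, add_neg_cancel, Real.exp_zero]
    rw [show -b * Real.exp (-s) + b * Real.exp (-s) = 0 by ring, F_id]

lemma P_apply (b s : ℝ) (x : Icc (0 : E2) 1) : (P b s x).1 = F b (Real.exp s) x.1 := rfl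

lemma P_mul (b s b' s' : ℝ) : P b s * P b' s' = P (b' + b * Real.exp s') (s + s') := by
  ext1 x
  apply Subtype.ext
  change F _ _ (F _ _ x.1) = F _ _ x.1
  rw [F_F (Real.exp_pos _) (Real.exp_pos _), Real.exp_add]

lemma P_zero : P 0 0 = 1 := by
  ext1 x
  apply Subtype.ext
  change F _ _ x.1 = x.1
  rw [Real.exp_zero, F_id]

lemma P_eq_one {b s : ℝ} (h : P b s = 1) : b = 0 ∧ s = 0 := by
  have h1 : ∀ q ∈ Icc (0 : E2) 1, F b (Real.exp s) q = q := by
    intro q hq
    have := congrArg (fun g : Equiv.Perm (Icc (0 : E2) 1) => (g ⟨q, hq⟩).1) h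
    exact this
  obtain ⟨h2, h3⟩ := F_faithful (Real.exp_pos s) h1
  exact ⟨h2, by rwa [Real.exp_eq_one_iff] at h3⟩

lemma P_inv (b s : ℝ) : (P b s)⁻¹ = P (-b * Real.exp (-s)) (-s) := by
  rw [inv_eq_iff_mul_eq_one, P_mul]
  rw [show -b * Real.exp (-s) + b * Real.exp (-s) = 0 by ring, add_neg_cancel, P_zero]

/-- translations -/
noncomputable def shearHom : Multiplicative ℝ →* Equiv.Perm (Icc (0 : E2) 1) where
  toFun b := P b.toAdd 0
  map_one' := P_zero
  map_mul' x y := by
    rw [P_mul]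
    simp [add_comm]

/-- scalings -/
noncomputable def scaleHom : Multiplicative ℝ →* Equiv.Perm (Icc (0 : E2) 1) where
  toFun s := P 0 s.toAdd
  map_one' := P_zero
  map_mul' x y := by
    rw [P_mul]
    simp

lemma P_shear_zpow (b : ℝ) (n : ℤ) : P b 0 ^ n = P ((n : ℝ) * b) 0 := by
  have := map_zpow shearHom (Multiplicative.ofAdd b) n
  rw [← ofAdd_zsmul] at this
  simpa [shearHom] using this.symm

lemma P_scale_zpow (s : ℝ) (n : ℤ) : P 0 s ^ n = P 0 ((n : ℝ) * s) := by
  have := map_zpow scaleHom (Multiplicative.ofAdd s) n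
  rw [← ofAdd_zsmul] at this
  simpa [scaleHom] using this.symm

lemma P_shear_prod (l : List ℝ) : (l.map (fun b => P b 0)).prod = P l.sum 0 := by
  induction l with
  | nil => simp [P_zero]
  | cons a l ih =>
    rw [List.map_cons, List.prod_cons, ih, P_mul, List.sum_cons, Real.exp_zero]
    congr 1
    · ring
    · ring

lemma P_scale_prod (l : List ℝ) : (l.map (fun b => P 0 b)).prod = P 0 l.sum := by
  induction l with
  | nil => simp [P_zero]
  | cons a l ih =>
    rw [List.map_cons, List.prod_cons, ih, P_mul, List.sum_cons]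
    congr 1
    · ring

lemma P_scale_ofFn (s : Fin 3 → ℝ) (v : Fin 3 → ℤ) :
    (List.ofFn fun i => P 0 (s i) ^ v i).prod = P 0 (∑ i, (v i : ℝ) * s i) := by
  have : (fun i => P 0 (s i) ^ v i) = (fun b => P 0 b) ∘ (fun i => (v i : ℝ) * s i) := by
    funext i; simp [P_scale_zpow]
  rw [this, ← List.map_ofFn, P_scale_prod, List.sum_ofFn]

lemma conj_eq (σ : ℝ) : P 0 σ * P 1 0 * (P 0 σ)⁻¹ = P (Real.exp (-σ)) 0 := by
  rw [P_inv, P_mul, P_mul]
  congr 1
  · simp
  · ring

/-- continuity and piecewise linearity -/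
lemma P_forward_continuous (b s : ℝ) : Continuous (P b s) := by
  obtain ⟨k, S, A, hcov, hag⟩ := F_PL b (Real.exp s) (Real.exp_pos s)
  rw [continuous_induced_rng]
  -- closed cover
  let C : Fin k → Set (Icc (0 : E2) 1) := fun i => {x | x.1 ∈ convexHull ℝ (↑(S i) : Set E2)}
  have hC : ∀ i, IsClosed (C i) := fun i =>
    ((S i).finite_toSet.isClosed_convexHull ℝ).preimage continuous_subtype_val
  have hU : (⋃ i, C i) = univ := by
    ext x
    simp only [mem_iUnion, mem_univ, iff_true]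
    exact hcov x.1 x.2
  refine (locallyFinite_of_finite C).continuous hU hC fun i => ?_
  have : ContinuousOn (fun x : Icc (0 : E2) 1 => A i x.1) (C i) :=
    ((A i).continuous_of_finiteDimensional.comp continuous_subtype_val).continuousOn
  refine this.congr fun x hx => ?_
  exact hag i x.1 x.2 hx

lemma P_symm (b s : ℝ) : (P b s).symm = P (-b * Real.exp (-s)) (-s) := P_inv b s

/-- Main theorem for the square. -/
theorem main :
      ∃ (a : Equiv.Perm (Set.Icc (0 : Fin 2 → ℝ) 1))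
        (t : Fin 3 → Equiv.Perm (Set.Icc (0 : Fin 2 → ℝ) 1)),
        (∀ g : Equiv.Perm (Set.Icc (0 : Fin 2 → ℝ) 1),
            (g = a ∨ ∃ i, g = t i) →
              Continuous ⇑g ∧ Continuous ⇑g.symm ∧
              ∃ (k : ℕ) (S : Fin k → Finset (Fin 2 → ℝ))
                (A : Fin k → ((Fin 2 → ℝ) →ᵃ[ℝ] (Fin 2 → ℝ))),
                (∀ x : Set.Icc (0 : Fin 2 → ℝ) 1,
                    ∃ i, x.1 ∈ convexHull ℝ (↑(S i) : Set (Fin 2 → ℝ))) ∧
                (∀ i, ∀ x : Set.Icc (0 : Fin 2 → ℝ) 1,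
                    x.1 ∈ convexHull ℝ (↑(S i) : Set (Fin 2 → ℝ)) →
                      (g x).1 = A i x.1)) ∧
        (∀ i j, t i * t j = t j * t i) ∧
        (∀ v w : Fin 3 → ℤ,
            Commute
              ((List.ofFn fun i => t i ^ v i).prod * a * ((List.ofFn fun i => t i ^ v i).prod)⁻¹)
              ((List.ofFn fun i => t i ^ w i).prod * a * ((List.ofFn fun i => t i ^ w i).prod)⁻¹)) ∧
        (∀ (l : List ((Fin 3 → ℤ) × ℤ)) (v : Fin 3 → ℤ),
            (l.map Prod.fst).Nodup →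
            (l.map (fun p : (Fin 3 → ℤ) × ℤ =>
                ((List.ofFn fun i => t i ^ p.1 i).prod * a *
                  ((List.ofFn fun i => t i ^ p.1 i).prod)⁻¹) ^ p.2)).prod *
              (List.ofFn fun i => t i ^ v i).prod = 1 →
            v = 0 ∧ ∀ p ∈ l, p.2 = 0) := by
  obtain ⟨s, hs⟩ := exists_exponents
  have hPL : ∀ b r : ℝ, Continuous (P b r) ∧ Continuous (P b r).symm ∧
      ∃ (k : ℕ) (S : Fin k → Finset (Fin 2 → ℝ))
                (A : Fin k → ((Fin 2 → ℝ) →ᵃ[ℝ] (Fin 2 → ℝ))),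
                (∀ x : Set.Icc (0 : Fin 2 → ℝ) 1,
                    ∃ i, x.1 ∈ convexHull ℝ (↑(S i) : Set (Fin 2 → ℝ))) ∧
                (∀ i, ∀ x : Set.Icc (0 : Fin 2 → ℝ) 1,
                    x.1 ∈ convexHull ℝ (↑(S i) : Set (Fin 2 → ℝ)) →
                      (P b r x).1 = A i x.1) := by
    intro b r
    refine ⟨P_forward_continuous b r, ?_, ?_⟩
    · rw [P_symm]; exact P_forward_continuous _ _
    · obtain ⟨k, S, A, hcov, hag⟩ := F_PL b (Real.exp r) (Real.exp_pos r)
      exact ⟨k, S, A, fun x => hcov x.1 x.2, fun i x hx => hag i x.1 x.2 hx⟩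
  refine ⟨P 1 0, fun i => P 0 (s i), ?_, ?_, ?_, ?_⟩
  · rintro g (rfl | ⟨i, rfl⟩)
    · exact hPL _ _
    · exact hPL _ _
  · intro i j
    rw [P_mul, P_mul]
    congr 1 <;> ring
  · intro v w
    rw [P_scale_ofFn, P_scale_ofFn, conj_eq, conj_eq]
    unfold Commute SemiconjBy
    rw [P_mul, P_mul]
    congr 1
    rw [Real.exp_zero]; ring
  · intro l v hl h
    simp only [P_scale_ofFn, conj_eq, P_shear_zpow] at h
    have h1 : (l.map (fun p : (Fin 3 → ℤ) × ℤ =>
        P ((p.2 : ℝ) * Real.exp (-(∑ i, (p.1 i : ℝ) * s i))) 0)).prod =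
        P (l.map (fun p : (Fin 3 → ℤ) × ℤ => (p.2 : ℝ) *
          Real.exp (-(∑ i, (p.1 i : ℝ) * s i)))).sum 0 := by
      rw [← P_shear_prod, List.map_map]
      rfl
    rw [h1, P_mul] at h
    obtain ⟨h2, h3⟩ := P_eq_one h
    rw [zero_add] at h2 h3
    have h4 : (l.map (fun p : (Fin 3 → ℤ) × ℤ => (p.2 : ℝ) *
          Real.exp (-(∑ i, (p.1 i : ℝ) * s i)))).sum = 0 := by
      rcases mul_eq_zero.1 h2 with h | h
      · exact h
      · exact absurd h (Real.exp_pos _).ne'
    refine ⟨?_, hs l hl h4⟩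
    by_contra hv
    have h5 := hs [(v, 1), (0, -1)] (by simpa using hv) (by simp [h3]) (v, 1) (by simp)
    simp at h5

end Pool.Agent.H14
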