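import Pool.Agent.H14.PLAct

set_option autoImplicit false

namespace Pool.Agent.H14

open Set

/-- list version -/
theorem exists_hull (l : List (E2 →ᵃ[ℝ] ℝ))
    (hb : {x : E2 | ∀ f ∈ l, 0 ≤ f x} ⊆ Icc (0 : E2) 1) :
    ∃ S : Finset E2, ∀ x : E2, x ∈ convexHull ℝ (S : Set E2) ↔ ∀ f ∈ l, 0 ≤ f x := by
  classical
  have hb' : Bornology.IsBounded {x : E2 | ∀ f ∈ l.toFinset, 0 ≤ f x} := by
    simp only [List.mem_toFinset]
    exact (Metric.isBounded_Icc (0 : E2) 1).subset hb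
  obtain ⟨S, hS⟩ := exists_finset_convexHull l.toFinset hb'
  refine ⟨S, fun x => ?_⟩
  rw [← hS]
  simp

/-- functionals cutting out the unit square -/
noncomputable def cubeL : List (E2 →ᵃ[ℝ] ℝ) :=
  [lin 1 0 0, lin (-1) 0 1, lin 0 1 0, lin 0 (-1) 1]

/-- functionals cutting out the inner square -/
noncomputable def innerL : List (E2 →ᵃ[ℝ] ℝ) :=
  [lin 1 0 (-1/3), lin (-1) 0 (2/3), lin 0 1 (-1/3), lin 0 (-1) (2/3)]

lemma mem_cubeL (x : E2) : (∀ f ∈ cubeL, 0 ≤ f x) ↔ x ∈ Icc (0 : E2) 1 := by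
  simp only [cubeL, List.mem_cons, List.not_mem_nil, or_false,
    forall_eq_or_imp, forall_eq, lin_apply]
  constructor
  · rintro ⟨h1, h2, h3, h4⟩
    constructor
    · intro i; fin_cases i
      · change (0 : ℝ) ≤ x 0; linarith
      · change (0 : ℝ) ≤ x 1; linarith
    · intro i; fin_cases i
      · change x 0 ≤ (1 : ℝ); linarith
      · change x 1 ≤ (1 : ℝ); linarith
  · rintro ⟨h1, h2⟩
    have a0 : (0 : ℝ) ≤ x 0 := h1 0
    have a1 : (0 : ℝ) ≤ x 1 := h1 1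
    have b0 : x 0 ≤ (1 : ℝ) := h2 0
    have b1 : x 1 ≤ (1 : ℝ) := h2 1
    refine ⟨?_, ?_, ?_, ?_⟩ <;> linarith

lemma mem_innerL (x : E2) : (∀ f ∈ innerL, 0 ≤ f x) ↔ InC x := by
  simp only [innerL, List.mem_cons, List.not_mem_nil, or_false,
    forall_eq_or_imp, forall_eq, lin_apply, InC]
  constructor
  · rintro ⟨h1, h2, h3, h4⟩
    refine ⟨?_, ?_, ?_, ?_⟩ <;> linarith
  · rintro ⟨h1, h2, h3, h4⟩
    refine ⟨?_, ?_, ?_, ?_⟩ <;> linarith

/-- the affine map `β` -/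
noncomputable def beta (b d : ℝ) (i m : Fin 4) (k : ℤ) : E2 →ᵃ[ℝ] E2 :=
  ((2 : ℝ) ^ (-k) * (2 : ℝ) ^ ((i : ℕ) : ℤ)) • (act b d).comp (alpha i m)

lemma beta_apply (b d : ℝ) (i m : Fin 4) (k : ℤ) (q : E2) :
    beta b d i m k q = (2 : ℝ) ^ (-k) • act b d ((2 : ℝ) ^ ((i : ℕ) : ℤ) • alpha i m q) := by
  rw [act_smul, smul_smul]; rfl

/-- the functionals of a piece -/
noncomputable def pieceL (b d : ℝ) (i m m' : Fin 4) (k : ℤ) : List (E2 →ᵃ[ℝ] ℝ) :=
  cubeL ++ ((Tf m).map (fun f => f.comp (alpha i m)) ++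
    (Tf m').map (fun f => f.comp (beta b d i m k)))

lemma mem_pieceL (b d : ℝ) (i m m' : Fin 4) (k : ℤ) (x : E2) :
    (∀ f ∈ pieceL b d i m m' k, 0 ≤ f x) ↔
      x ∈ Icc (0 : E2) 1 ∧ alpha i m x ∈ T m ∧ beta b d i m k x ∈ T m' := by
  unfold pieceL
  simp only [List.mem_append, List.mem_map]
  constructor
  · intro h
    refine ⟨(mem_cubeL x).1 fun f hf => h f (Or.inl hf), ?_, ?_⟩
    · intro f hf
      exact h (f.comp (alpha i m)) (Or.inr (Or.inl ⟨f, hf, rfl⟩))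
    · intro f hf
      exact h (f.comp (beta b d i m k)) (Or.inr (Or.inr ⟨f, hf, rfl⟩))
  · rintro ⟨h1, h2, h3⟩ f (hf | ⟨g, hg, rfl⟩ | ⟨g, hg, rfl⟩)
    · exact (mem_cubeL x).2 h1 f hf
    · exact h2 g hg
    · exact h3 g hg

/-- the affine map on a piece -/
noncomputable def pieceA (b d : ℝ) (i m m' : Fin 4) (k : ℤ) : E2 →ᵃ[ℝ] E2 :=
  ((J ^ k : E2 ≃ᵃ[ℝ] E2) : E2 →ᵃ[ℝ] E2).comp ((tau m').comp (beta b d i m k))

lemma piece_eq {b d : ℝ} (hd : 0 < d) {i m m' : Fin 4} {k : ℤ} {x : E2}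
    (h1 : alpha i m x ∈ T m) (h2 : beta b d i m k x ∈ T m') :
    F b d x = pieceA b d i m m' k x := by
  have h3 := proj_alpha h1
  conv_lhs => rw [← h3]
  rw [F_proj hd (inX_smul (two_zpow_pos _) (T_inX h1))]
  rw [beta_apply] at h2
  rw [proj_eq h2]
  change _ = (J ^ k) (tau m' (beta b d i m k x))
  rw [beta_apply]

lemma nrm_act_le {b d : ℝ} (hd : 0 < d) {p : E2} (hp : 0 ≤ p 1) :
    nrm (act b d p) ≤ (1 + |b| + d) * nrm p := by
  unfold nrm
  rw [act_zero, act_one]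
  have h1 : |p 0 + b * p 1| ≤ |p 0| + |b| * p 1 := by
    refine (abs_add_le _ _).trans ?_
    rw [abs_mul, abs_of_nonneg hp]
  have h2 := abs_nonneg (p 0)
  have h3 := abs_nonneg b
  nlinarith [mul_nonneg h3 h2, mul_nonneg hd.le h2]

/-- bound for the levels -/
lemma lev_bound {b d : ℝ} (hd : 0 < d) : ∃ K : ℕ, ∀ p : E2, 0 ≤ p 1 → 1 ≤ nrm p → nrm p ≤ 16 →
    -(K : ℤ) ≤ lev (act b d p) ∧ lev (act b d p) ≤ K := by
  obtain ⟨K1, hK1⟩ := pow_unbounded_of_one_lt ((1 + |b| + d) * 16) (by norm_num : (1 : ℝ) < 2)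
  obtain ⟨K2, hK2⟩ := pow_unbounded_of_one_lt (1 + |(-b / d)| + d⁻¹) (by norm_num : (1 : ℝ) < 2)
  refine ⟨K1 + K2, fun p hp h1 h2 => ?_⟩
  have hX : InX p := ⟨hp, by linarith⟩
  have hX' := act_inX (b := b) hd hX
  have hpos := hX'.2
  have hle := nrm_act_le (b := b) hd hp
  have hinv : act (-b / d) d⁻¹ (act b d p) = p := by
    rw [act_act]
    apply ext2
    · rw [act_zero]; field_simp; ring
    · rw [act_one]; field_simp
  have hge := nrm_act_le (b := -b / d) (inv_pos.2 hd) hX'.1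
  rw [hinv] at hge
  have hl := (lev_eq_iff hpos _).1 rfl
  have hc0 : 0 < 1 + |b| + d := by positivity
  have hc1 : 0 < 1 + |(-b / d)| + d⁻¹ := by positivity
  constructor
  · by_contra hcon
    push Not at hcon
    have h3 : lev (act b d p) + 1 ≤ -(K2 : ℤ) := by
      have : (0 : ℤ) ≤ K1 := Int.natCast_nonneg _
      push_cast at hcon
      omega
    have h4 : nrm (act b d p) < (2 : ℝ) ^ (-(K2 : ℤ)) :=
      lt_of_lt_of_le hl.2 (zpow_le_zpow_right₀ (by norm_num) h3)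
    have h5 : nrm p < 1 := by
      calc nrm p ≤ (1 + |(-b / d)| + d⁻¹) * nrm (act b d p) := hge
        _ < 2 ^ K2 * nrm (act b d p) := mul_lt_mul_of_pos_right hK2 hpos
        _ ≤ 2 ^ K2 * (2 : ℝ) ^ (-(K2 : ℤ)) := mul_le_mul_of_nonneg_left h4.le (by positivity)
        _ = 1 := by
          rw [zpow_neg, zpow_natCast]
          exact mul_inv_cancel₀ (by positivity)
    linarith
  · by_contra hcon
    push Not at hcon
    have h3 : (K1 : ℤ) ≤ lev (act b d p) := by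
      have : (0 : ℤ) ≤ K2 := Int.natCast_nonneg _
      push_cast at hcon
      omega
    have h4 : (2 : ℝ) ^ K1 ≤ nrm (act b d p) := by
      calc (2 : ℝ) ^ K1 = (2 : ℝ) ^ (K1 : ℤ) := (zpow_natCast _ _).symm
        _ ≤ (2 : ℝ) ^ (lev (act b d p)) := zpow_le_zpow_right₀ (by norm_num) h3
        _ ≤ _ := hl.1
    have h5 : nrm (act b d p) ≤ (1 + |b| + d) * 16 := hle.trans (by nlinarith)
    linarith

/-- The piecewise linearity of the action, in the form required. -/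
theorem F_PL (b d : ℝ) (hd : 0 < d) :
    ∃ (k : ℕ) (S : Fin k → Finset E2) (A : Fin k → (E2 →ᵃ[ℝ] E2)),
      (∀ x ∈ Icc (0 : E2) 1, ∃ i, x ∈ convexHull ℝ (↑(S i) : Set E2)) ∧
      (∀ i, ∀ x ∈ Icc (0 : E2) 1, x ∈ convexHull ℝ (↑(S i) : Set E2) → F b d x = A i x) := by
  classical
  obtain ⟨K, hK⟩ := lev_bound (b := b) hd
  -- the index type
  let ι := Option (Fin 4 × Fin 4 × Fin 4 × (Finset.Icc (-(K : ℤ)) K))
  let L : ι → List (E2 →ᵃ[ℝ] ℝ) := fun j => match j with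
    | none => innerL
    | some (i, m, m', k) => pieceL b d i m m' k.1
  let A : ι → (E2 →ᵃ[ℝ] E2) := fun j => match j with
    | none => AffineMap.id ℝ E2
    | some (i, m, m', k) => pieceA b d i m m' k.1
  have hsub : ∀ j, {x : E2 | ∀ f ∈ L j, 0 ≤ f x} ⊆ Icc (0 : E2) 1 := by
    intro j x hx
    rcases j with _ | ⟨i, m, m', k⟩
    · have hx' := (mem_innerL x).1 hx
      obtain ⟨h1, h2, h3, h4⟩ := hx'
      rw [← mem_cubeL]
      rw [mem_cubeL]
      constructor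
      · intro i; fin_cases i
        · change (0 : ℝ) ≤ x 0; linarith
        · change (0 : ℝ) ≤ x 1; linarith
      · intro i; fin_cases i
        · change x 0 ≤ (1 : ℝ); linarith
        · change x 1 ≤ (1 : ℝ); linarith
    · exact ((mem_pieceL b d i m m' k.1 x).1 hx).1
  choose S hS using fun j => exists_hull (L j) (hsub j)
  have hcover : ∀ x ∈ Icc (0 : E2) 1, ∃ j, x ∈ convexHull ℝ (↑(S j) : Set E2) := by
    intro x hx
    by_cases hY : InY x
    · obtain ⟨i, m, him⟩ := chart hY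
      have him' : alpha i m x ∈ T m := him
      set p := (2 : ℝ) ^ ((i : ℕ) : ℤ) • alpha i m x with hp
      have hpX : InX p := inX_smul (two_zpow_pos _) (T_inX him')
      have hn := T_nrm him'
      have hnp1 : 1 ≤ nrm p := by
        rw [hp, nrm_smul (two_zpow_pos _)]
        have : (1 : ℝ) ≤ (2 : ℝ) ^ ((i : ℕ) : ℤ) := by
          rw [zpow_natCast]; exact one_le_pow₀ (by norm_num)
        nlinarith [hn.2.1]
      have hnp2 : nrm p ≤ 16 := by
        rw [hp, nrm_smul (two_zpow_pos _)]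
        have : (2 : ℝ) ^ ((i : ℕ) : ℤ) ≤ 8 := by
          rw [zpow_natCast]
          calc (2 : ℝ) ^ (i : ℕ) ≤ 2 ^ 3 := pow_le_pow_right₀ (by norm_num) (by omega)
            _ = 8 := by norm_num
        nlinarith [hn.2.2, hn.2.1, two_zpow_pos ((i : ℕ) : ℤ)]
      have hlev := hK p hpX.1 hnp1 hnp2
      obtain ⟨m', hm'⟩ := exists_mem_T (act_inX (b := b) hd hpX)
      refine ⟨some (i, m, m', ⟨lev (act b d p), Finset.mem_Icc.2 hlev⟩), ?_⟩
      rw [hS]
      refine (mem_pieceL b d i m m' _ x).2 ⟨hx, him', ?_⟩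
      rw [beta_apply]
      exact hm'
    · refine ⟨none, ?_⟩
      rw [hS]
      refine (mem_innerL x).2 ?_
      obtain ⟨h1, h2⟩ := hx
      have a0 : (0 : ℝ) ≤ x 0 := h1 0
      have a1 : (0 : ℝ) ≤ x 1 := h1 1
      have b0 : x 0 ≤ (1 : ℝ) := h2 0
      have b1 : x 1 ≤ (1 : ℝ) := h2 1
      have : ¬ (x 0 ≤ 1/3 ∨ 2/3 ≤ x 0 ∨ x 1 ≤ 1/3 ∨ 2/3 ≤ x 1) := fun h =>
        hY ⟨⟨a0, b0, a1, b1⟩, h⟩
      push Not at this
      obtain ⟨c1, c2, c3, c4⟩ := this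
      exact ⟨c1.le, c2.le, c3.le, c4.le⟩
  have hagree : ∀ j, ∀ x ∈ Icc (0 : E2) 1, x ∈ convexHull ℝ (↑(S j) : Set E2) →
      F b d x = A j x := by
    intro j x hx hxj
    rw [hS] at hxj
    rcases j with _ | ⟨i, m, m', k⟩
    · exact F_inC hd ((mem_innerL x).1 hxj)
    · obtain ⟨-, h1, h2⟩ := (mem_pieceL b d i m m' k.1 x).1 hxj
      exact piece_eq hd h1 h2
  let e := Fintype.equivFin ι
  refine ⟨Fintype.card ι, fun n => S (e.symm n), fun n => A (e.symm n), ?_, ?_⟩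
  · intro x hx
    obtain ⟨j, hj⟩ := hcover x hx
    refine ⟨e j, ?_⟩
    simpa using hj
  · intro n x hx hxn
    exact hagree _ x hx hxn

end Pool.Agent.H14
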