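import Pool.Agent.H14.PLGeom

set_option autoImplicit false

namespace Pool.Agent.H14

open Set

/-- the norm on the closed upper half plane -/
def nrm (p : E2) : ℝ := |p 0| + p 1

/-- the punctured closed upper half plane -/
def InX (p : E2) : Prop := 0 ≤ p 1 ∧ 0 < nrm p

lemma nrm_smul {c : ℝ} (hc : 0 < c) (p : E2) : nrm (c • p) = c * nrm p := by
  simp only [nrm, Pi.smul_apply, smul_eq_mul, abs_mul, abs_of_pos hc]; ring

lemma inX_smul {c : ℝ} (hc : 0 < c) {p : E2} (hp : InX p) : InX (c • p) := by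
  refine ⟨?_, ?_⟩
  · simp only [Pi.smul_apply, smul_eq_mul]; exact mul_nonneg hc.le hp.1
  · rw [nrm_smul hc]; exact mul_pos hc hp.2

/-- the piecewise affine map on the fundamental domain -/
noncomputable def tauD (p : E2) : E2 :=
  if 0 ≤ p 0 then (if p 0 + 2 * p 1 ≤ 2 then tau 0 p else tau 1 p)
  else (if -p 0 + 2 * p 1 ≤ 2 then tau 2 p else tau 3 p)

/-- the level -/
noncomputable def lev (p : E2) : ℤ := Int.log 2 (nrm p)

/-- The chart map from the punctured closed half plane onto the annulus. -/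
noncomputable def proj (p : E2) : E2 := (J ^ lev p) (tauD ((2 : ℝ) ^ (-lev p) • p))

lemma lev_eq_iff {p : E2} (hp : 0 < nrm p) (k : ℤ) :
    lev p = k ↔ (2 : ℝ) ^ k ≤ nrm p ∧ nrm p < (2 : ℝ) ^ (k + 1) := by
  have h1 : ∀ x : ℤ, (2 : ℝ) ^ x ≤ nrm p ↔ x ≤ lev p := fun x => by
    have := Int.zpow_le_iff_le_log (R := ℝ) (b := 2) (by norm_num) (x := x) hp
    simpa [lev] using this
  rw [h1, ← not_le, h1]
  omega

lemma two_zpow_pos (k : ℤ) : (0 : ℝ) < (2 : ℝ) ^ k := zpow_pos (by norm_num) k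

lemma nrm_level {p : E2} (hp : 0 < nrm p) :
    1 ≤ nrm ((2 : ℝ) ^ (-lev p) • p) ∧ nrm ((2 : ℝ) ^ (-lev p) • p) < 2 := by
  have h := (lev_eq_iff hp (lev p)).1 rfl
  rw [nrm_smul (two_zpow_pos _)]
  have h2 : (2 : ℝ) ^ (-lev p) * (2 : ℝ) ^ (lev p) = 1 := by
    rw [← zpow_add₀ (by norm_num)]; simp
  have h3 : (2 : ℝ) ^ (-lev p) * (2 : ℝ) ^ (lev p + 1) = 2 := by
    rw [← zpow_add₀ (by norm_num)]; simp
  constructor
  · calc (1 : ℝ) = (2 : ℝ) ^ (-lev p) * (2 : ℝ) ^ (lev p) := h2.symm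
      _ ≤ _ := mul_le_mul_of_nonneg_left h.1 (two_zpow_pos _).le
  · calc _ < (2 : ℝ) ^ (-lev p) * (2 : ℝ) ^ (lev p + 1) :=
        mul_lt_mul_of_pos_left h.2 (two_zpow_pos _)
      _ = 2 := h3

lemma ext2 {p q : E2} (h0 : p 0 = q 0) (h1 : p 1 = q 1) : p = q := by
  ext i; fin_cases i
  · exact h0
  · exact h1

lemma tauD_eq {m : Fin 4} {p : E2} (h : p ∈ T m) : tauD p = tau m p := by
  fin_cases m
  · change tauD p = tau 0 p
    change p ∈ T 0 at h
    rw [mem_T0] at h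
    obtain ⟨h1, h2, h3⟩ := h
    unfold tauD
    split_ifs
    all_goals
      first
        | rfl
        | (apply ext2 <;> simp only [tau0, tau1, tau2, tau3, aff_zero, aff_one] <;> linarith)
  · change tauD p = tau 1 p
    change p ∈ T 1 at h
    rw [mem_T1] at h
    obtain ⟨h1, h2, h3⟩ := h
    unfold tauD
    split_ifs
    all_goals
      first
        | rfl
        | (apply ext2 <;> simp only [tau0, tau1, tau2, tau3, aff_zero, aff_one] <;> linarith)
  · change tauD p = tau 2 p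
    change p ∈ T 2 at h
    rw [mem_T2] at h
    obtain ⟨h1, h2, h3⟩ := h
    unfold tauD
    split_ifs
    all_goals
      first
        | rfl
        | (apply ext2 <;> simp only [tau0, tau1, tau2, tau3, aff_zero, aff_one] <;> linarith)
  · change tauD p = tau 3 p
    change p ∈ T 3 at h
    rw [mem_T3] at h
    obtain ⟨h1, h2, h3⟩ := h
    unfold tauD
    split_ifs
    all_goals
      first
        | rfl
        | (apply ext2 <;> simp only [tau0, tau1, tau2, tau3, aff_zero, aff_one] <;> linarith)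

lemma T_nrm {m : Fin 4} {p : E2} (h : p ∈ T m) : 0 ≤ p 1 ∧ 1 ≤ nrm p ∧ nrm p ≤ 2 := by
  unfold nrm
  fin_cases m
  · change p ∈ T 0 at h
    rw [mem_T0] at h
    obtain ⟨h1, h2, h3⟩ := h
    have : |p 0| = p 0 := abs_of_nonneg (by linarith)
    rw [this]; refine ⟨?_, ?_, ?_⟩ <;> linarith
  · change p ∈ T 1 at h
    rw [mem_T1] at h
    obtain ⟨h1, h2, h3⟩ := h
    have : |p 0| = p 0 := abs_of_nonneg (by linarith)
    rw [this]; refine ⟨?_, ?_, ?_⟩ <;> linarith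
  · change p ∈ T 2 at h
    rw [mem_T2] at h
    obtain ⟨h1, h2, h3⟩ := h
    have : |p 0| = -p 0 := abs_of_nonpos (by linarith)
    rw [this]; refine ⟨?_, ?_, ?_⟩ <;> linarith
  · change p ∈ T 3 at h
    rw [mem_T3] at h
    obtain ⟨h1, h2, h3⟩ := h
    have : |p 0| = -p 0 := abs_of_nonpos (by linarith)
    rw [this]; refine ⟨?_, ?_, ?_⟩ <;> linarith

lemma T_cover {p : E2} (h0 : 0 ≤ p 1) (h1 : 1 ≤ nrm p) (h2 : nrm p ≤ 2) : ∃ m, p ∈ T m := by
  unfold nrm at h1 h2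
  rcases le_total 0 (p 0) with h | h
  · rw [abs_of_nonneg h] at h1 h2
    rcases le_total (p 0 + 2 * p 1) 2 with h3 | h3
    · exact ⟨0, (mem_T0 p).2 ⟨h0, h1, h3⟩⟩
    · exact ⟨1, (mem_T1 p).2 ⟨h, h3, h2⟩⟩
  · rw [abs_of_nonpos h] at h1 h2
    rcases le_total (-p 0 + 2 * p 1) 2 with h3 | h3
    · exact ⟨2, (mem_T2 p).2 ⟨h0, h1, h3⟩⟩
    · exact ⟨3, (mem_T3 p).2 ⟨h, h3, h2⟩⟩

/-- gluing condition -/
lemma glue {m : Fin 4} {p : E2} (h : p ∈ T m) (h2 : nrm p = 2) :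
    J (tauD ((2 : ℝ)⁻¹ • p)) = tau m p := by
  unfold nrm at h2
  fin_cases m
  · change _ = tau 0 p
    change p ∈ T 0 at h
    rw [mem_T0] at h
    obtain ⟨h1, h3, h4⟩ := h
    rw [abs_of_nonneg (by linarith)] at h2
    have hm : (2 : ℝ)⁻¹ • p ∈ T 0 := by
      rw [mem_T0]; simp only [Pi.smul_apply, smul_eq_mul]; refine ⟨?_, ?_, ?_⟩ <;> linarith
    rw [tauD_eq hm]
    apply ext2
    · simp only [J_zero, tau0, aff_zero, aff_one, Pi.smul_apply, smul_eq_mul]; linarith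
    · simp only [J_one, tau0, aff_zero, aff_one, Pi.smul_apply, smul_eq_mul]; linarith
  · change _ = tau 1 p
    change p ∈ T 1 at h
    rw [mem_T1] at h
    obtain ⟨h1, h3, h4⟩ := h
    rw [abs_of_nonneg (by linarith)] at h2
    have hm : (2 : ℝ)⁻¹ • p ∈ T 0 := by
      rw [mem_T0]; simp only [Pi.smul_apply, smul_eq_mul]; refine ⟨?_, ?_, ?_⟩ <;> linarith
    rw [tauD_eq hm]
    apply ext2
    · simp only [J_zero, tau0, tau1, aff_zero, aff_one, Pi.smul_apply, smul_eq_mul]; linarith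
    · simp only [J_one, tau0, tau1, aff_zero, aff_one, Pi.smul_apply, smul_eq_mul]; linarith
  · change _ = tau 2 p
    change p ∈ T 2 at h
    rw [mem_T2] at h
    obtain ⟨h1, h3, h4⟩ := h
    rw [abs_of_nonpos (by linarith)] at h2
    have hm : (2 : ℝ)⁻¹ • p ∈ T 2 := by
      rw [mem_T2]; simp only [Pi.smul_apply, smul_eq_mul]; refine ⟨?_, ?_, ?_⟩ <;> linarith
    rw [tauD_eq hm]
    apply ext2
    · simp only [J_zero, tau2, aff_zero, aff_one, Pi.smul_apply, smul_eq_mul]; linarith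
    · simp only [J_one, tau2, aff_zero, aff_one, Pi.smul_apply, smul_eq_mul]; linarith
  · change _ = tau 3 p
    change p ∈ T 3 at h
    rw [mem_T3] at h
    obtain ⟨h1, h3, h4⟩ := h
    rw [abs_of_nonpos (by linarith)] at h2
    have hm : (2 : ℝ)⁻¹ • p ∈ T 2 := by
      rw [mem_T2]; simp only [Pi.smul_apply, smul_eq_mul]; refine ⟨?_, ?_, ?_⟩ <;> linarith
    rw [tauD_eq hm]
    apply ext2
    · simp only [J_zero, tau2, tau3, aff_zero, aff_one, Pi.smul_apply, smul_eq_mul]; linarith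
    · simp only [J_one, tau2, tau3, aff_zero, aff_one, Pi.smul_apply, smul_eq_mul]; linarith

/-- `proj` is affine on each scaled triangle. -/
theorem proj_eq {k : ℤ} {m : Fin 4} {p : E2} (h : (2 : ℝ) ^ (-k) • p ∈ T m) :
    proj p = (J ^ k) (tau m ((2 : ℝ) ^ (-k) • p)) := by
  obtain ⟨hy, hn1, hn2⟩ := T_nrm h
  rw [nrm_smul (two_zpow_pos _)] at hn1 hn2
  have hz : (2 : ℝ) ^ (-k) * (2 : ℝ) ^ k = 1 := by
    rw [← zpow_add₀ (by norm_num)]; simp
  have hkpos := two_zpow_pos k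
  have hkpos' := two_zpow_pos (-k)
  have hn : nrm p = (2 : ℝ) ^ k * ((2 : ℝ) ^ (-k) * nrm p) := by
    rw [← mul_assoc, mul_comm ((2 : ℝ) ^ k), hz, one_mul]
  have hge : (2 : ℝ) ^ k ≤ nrm p := by
    rw [hn]; nlinarith
  have hpos : 0 < nrm p := lt_of_lt_of_le hkpos hge
  have hle : nrm p ≤ (2 : ℝ) ^ (k + 1) := by
    rw [zpow_add₀ (by norm_num), zpow_one, hn]; nlinarith
  rcases hle.lt_or_eq with hlt | heq
  · have hl : lev p = k := (lev_eq_iff hpos k).2 ⟨hge, hlt⟩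
    unfold proj
    rw [hl, tauD_eq h]
  · have hl : lev p = k + 1 := (lev_eq_iff hpos (k + 1)).2
      ⟨heq.ge, by rw [heq]; exact zpow_lt_zpow_right₀ (by norm_num) (by omega)⟩
    unfold proj
    rw [hl]
    have e1 : (2 : ℝ) ^ (-(k + 1)) • p = (2 : ℝ)⁻¹ • ((2 : ℝ) ^ (-k) • p) := by
      rw [smul_smul, neg_add, zpow_add₀ (by norm_num), zpow_neg_one, mul_comm]
    have e2 : nrm ((2 : ℝ) ^ (-k) • p) = 2 := by
      rw [nrm_smul (two_zpow_pos _), heq, ← zpow_add₀ (by norm_num)]; simp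
    rw [e1, zpow_add_one]
    change (J ^ k) (J _) = _
    rw [glue h e2]

/-- Every point is in a scaled triangle. -/
lemma exists_mem_T {p : E2} (hp : InX p) : ∃ m, (2 : ℝ) ^ (-lev p) • p ∈ T m := by
  have h := nrm_level hp.2
  refine T_cover ?_ h.1 h.2.le
  simp only [Pi.smul_apply, smul_eq_mul]
  exact mul_nonneg (two_zpow_pos _).le hp.1

lemma lev_smul {p : E2} (hp : 0 < nrm p) (k : ℤ) : lev ((2 : ℝ) ^ k • p) = k + lev p := by
  have h := (lev_eq_iff hp (lev p)).1 rfl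
  rw [lev_eq_iff (by rw [nrm_smul (two_zpow_pos _)]; exact mul_pos (two_zpow_pos _) hp),
    nrm_smul (two_zpow_pos _)]
  constructor
  · rw [zpow_add₀ (by norm_num)]
    exact mul_le_mul_of_nonneg_left h.1 (two_zpow_pos _).le
  · rw [add_assoc, zpow_add₀ (by norm_num)]
    exact mul_lt_mul_of_pos_left h.2 (two_zpow_pos _)

lemma proj_two_smul {p : E2} (hp : 0 < nrm p) (k : ℤ) :
    proj ((2 : ℝ) ^ k • p) = (J ^ k) (proj p) := by
  unfold proj
  rw [lev_smul hp, zpow_add]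
  change (J ^ k) ((J ^ lev p) _) = _
  rw [smul_smul, ← zpow_add₀ (by norm_num)]
  congr 5
  ring

lemma J_zpow_four_mul (k : ℤ) : J ^ (4 * k) = 1 := by
  rw [zpow_mul]
  have h4 : J ^ (4 : ℤ) = 1 := by
    have := J_pow_four
    exact_mod_cast this
  rw [h4, one_zpow]

lemma proj_smul {p : E2} (hp : 0 < nrm p) (k : ℤ) : proj ((2 : ℝ) ^ (4 * k) • p) = proj p := by
  rw [proj_two_smul hp, J_zpow_four_mul]; rfl

/-- coordinates on the fundamental domain -/
lemma tauD_range {p : E2} (h0 : 0 ≤ p 1) (h1 : 1 ≤ nrm p) (h2 : nrm p < 2) :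
    1 - tauD p 0 ≤ tauD p 1 ∧ tauD p 1 < tauD p 0 ∧ 2 / 3 ≤ tauD p 0 ∧ tauD p 0 ≤ 1 ∧
      (0 < p 1 → 2 / 3 < tauD p 0) := by
  unfold nrm at h1 h2
  unfold tauD
  split_ifs with h4 h5 h5
  · rw [abs_of_nonneg h4] at h1 h2
    simp only [tau0, aff_zero, aff_one]
    refine ⟨?_, ?_, ?_, ?_, fun _ => ?_⟩ <;> linarith
  · rw [abs_of_nonneg h4] at h1 h2
    simp only [tau1, aff_zero, aff_one]
    refine ⟨?_, ?_, ?_, ?_, fun _ => ?_⟩ <;> linarith
  · rw [abs_of_nonpos (by linarith)] at h1 h2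
    simp only [tau2, aff_zero, aff_one]
    refine ⟨?_, ?_, ?_, ?_, fun _ => ?_⟩ <;> linarith
  · rw [abs_of_nonpos (by linarith)] at h1 h2
    simp only [tau3, aff_zero, aff_one]
    refine ⟨?_, ?_, ?_, ?_, fun _ => ?_⟩ <;> linarith

lemma tauD_inj {p q : E2} (h0 : 0 ≤ p 1) (h1 : 1 ≤ nrm p) (h2 : nrm p < 2)
    (g0 : 0 ≤ q 1) (g1 : 1 ≤ nrm q) (g2 : nrm q < 2) (h : tauD p = tauD q) : p = q := by
  have e0 := congrFun h 0
  have e1 := congrFun h 1
  unfold nrm at h1 h2 g1 g2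
  unfold tauD at e0 e1
  split_ifs at e0 e1 with a1 a2 a3 a4 a5 a6 a7 a8 a9 a10
  all_goals
    simp only [tau0, tau1, tau2, tau3, aff_zero, aff_one] at e0 e1
  all_goals
    first
      | rw [abs_of_nonneg (by assumption : 0 ≤ p 0)] at h1 h2
      | rw [abs_of_nonpos (by linarith : p 0 ≤ 0)] at h1 h2
  all_goals
    first
      | rw [abs_of_nonneg (by assumption : 0 ≤ q 0)] at g1 g2
      | rw [abs_of_nonpos (by linarith : q 0 ≤ 0)] at g1 g2
  all_goals
    apply ext2 <;> linarith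

/-- the sectors are disjoint -/
lemma sector_disjoint {q : E2} {k : ℤ} (h1 : 1 - q 0 ≤ q 1) (h2 : q 1 < q 0)
    (h3 : 1 - (J ^ k) q 0 ≤ (J ^ k) q 1) (h4 : (J ^ k) q 1 < (J ^ k) q 0) : k % 4 = 0 := by
  rcases J_zpow_cases k q with ⟨h, e0, e1⟩ | ⟨h, e0, e1⟩ | ⟨h, e0, e1⟩ | ⟨h, e0, e1⟩
  · exact h
  all_goals
    rw [e0, e1] at h3
    rw [e0, e1] at h4
    exfalso
    linarith

/-- `proj` identifies exactly the points differing by a power of 16. -/
theorem proj_inj {p q : E2} (hp : InX p) (hq : InX q) (h : proj p = proj q) :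
    ∃ k : ℤ, q = (2 : ℝ) ^ (4 * k) • p := by
  have np := nrm_level hp.2
  have nq := nrm_level hq.2
  set p' := (2 : ℝ) ^ (-lev p) • p with hp'
  set q' := (2 : ℝ) ^ (-lev q) • q with hq'
  have hp0 : 0 ≤ p' 1 := (inX_smul (two_zpow_pos _) hp).1
  have hq0 : 0 ≤ q' 1 := (inX_smul (two_zpow_pos _) hq).1
  have rp := tauD_range hp0 np.1 np.2
  have rq := tauD_range hq0 nq.1 nq.2
  have h' : (J ^ (lev p - lev q)) (tauD p') = tauD q' := by
    unfold proj at h
    rw [← hp', ← hq'] at h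
    have : (J ^ (-lev q)) ((J ^ lev p) (tauD p')) = (J ^ (-lev q)) ((J ^ lev q) (tauD q')) := by
      rw [h]
    change (J ^ (-lev q) * J ^ lev p) (tauD p') = (J ^ (-lev q) * J ^ lev q) (tauD q') at this
    rw [← zpow_add, ← zpow_add, neg_add_cancel, zpow_zero] at this
    rw [show lev p - lev q = -lev q + lev p by ring, this]; rfl
  have hk : (lev p - lev q) % 4 = 0 := by
    apply sector_disjoint (q := tauD p') rp.1 rp.2.1
    · rw [h']; exact rq.1
    · rw [h']; exact rq.2.1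
  obtain ⟨k, hk⟩ : ∃ k : ℤ, lev p - lev q = 4 * k := ⟨(lev p - lev q) / 4, by omega⟩
  rw [hk, J_zpow_four_mul] at h'
  have h'' : p' = q' := tauD_inj hp0 np.1 np.2 hq0 nq.1 nq.2 h'
  refine ⟨-k, ?_⟩
  have : q = (2 : ℝ) ^ (lev q) • q' := by
    rw [hq', smul_smul, ← zpow_add₀ (by norm_num)]; simp
  rw [this, ← h'', hp', smul_smul, ← zpow_add₀ (by norm_num)]
  congr 2
  linarith

end Pool.Agent.H14
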